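import Mathlib
import Pool.Agent.W765.Uni2

set_option autoImplicit false

open MeasureTheory Filter Topology Set TopologicalSpace

namespace Pool.Agent.TH419.FS

open Pool.Agent.H705R2 Pool.Agent.W765.Sta Pool.Agent.W765.KB Pool.Agent.W765.Det

/-- a piece of an orbit which stays close to a finite invariant set -/
lemma shadow {p : ℕ} (hp : 2 ≤ p) {E : Set Circ} (hfin : E.Finite) (hinv : ∀ x ∈ E, p • x ∈ E) :
    ∃ c > 0, ∀ (y : Circ) (m : ℕ), (∀ j ≤ m, p ^ j • y ∈ Metric.thickening c E) →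
      ∃ e ∈ E, (p : ℝ) ^ m * dist y e < c := by
  obtain ⟨η, hη, hsep⟩ : ∃ η > 0, ∀ x ∈ E, ∀ y ∈ E, dist x y < η → x = y := by
    by_contra hcon
    push Not at hcon
    have hfin2 : (E ×ˢ E).Finite := hfin.prod hfin
    set D : Set ℝ := (fun z : Circ × Circ => dist z.1 z.2) '' ((E ×ˢ E) ∩ {z | z.1 ≠ z.2}) with hD
    have hDfin : D.Finite := (hfin2.inter_of_left _).image _
    obtain ⟨x, hx, y, hy, hxy, hne⟩ := hcon 1 one_pos
    have hDne : D.Nonempty := ⟨_, (x, y), ⟨⟨hx, hy⟩, hne⟩, rfl⟩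
    obtain ⟨m, hm, hmin⟩ := Set.exists_min_image D id hDfin hDne
    obtain ⟨z, ⟨⟨hz1, hz2⟩, hz3⟩, rfl⟩ := hm
    obtain ⟨x', hx', y', hy', hxy', hne'⟩ := hcon (dist z.1 z.2) (dist_pos.2 hz3)
    have h1 := hmin (dist x' y') ⟨(x', y'), ⟨⟨hx', hy'⟩, hne'⟩, rfl⟩
    simp only [id] at h1
    linarith
  have hp0 : (0 : ℝ) < p := by positivity
  refine ⟨min (η / (p + 1)) (1 / (2 * p)), by positivity, ?_⟩
  intro y m hyE
  set c := min (η / ((p : ℝ) + 1)) (1 / (2 * p)) with hc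
  have hcη : (p + 1) * c ≤ η := by
    have : c ≤ η / ((p : ℝ) + 1) := min_le_left _ _
    rw [le_div_iff₀ (by positivity)] at this
    linarith
  have hc2 : c ≤ 1 / (2 * p) := min_le_right _ _
  obtain ⟨e, he, hye⟩ := Metric.mem_thickening_iff.1 (by simpa using hyE 0 (Nat.zero_le _))
  have key : ∀ n : ℕ, n ≤ m → p ^ n • e ∈ E ∧ dist (p ^ n • y) (p ^ n • e) < c ∧
      dist (p ^ n • y) (p ^ n • e) = p ^ n * dist y e := by
    intro n
    induction n with
    | zero => intro _; simpa using ⟨he, hye⟩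
    | succ n ih =>
      intro hn
      obtain ⟨h1, h2, h3⟩ := ih (by omega)
      have h4 : p ^ (n + 1) • e ∈ E := by rw [pow_succ', mul_smul]; exact hinv _ h1
      have h5 : dist (p ^ (n + 1) • y) (p ^ (n + 1) • e) = p * dist (p ^ n • y) (p ^ n • e) := by
        rw [pow_succ', mul_smul, mul_smul, dist_eq_norm, dist_eq_norm, ← nsmul_sub]
        refine norm_smul_eq (by omega) ?_
        rw [← dist_eq_norm]
        linarith
      obtain ⟨e', he', hye'⟩ := Metric.mem_thickening_iff.1 (hyE (n + 1) hn)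
      have h6 : p ^ (n + 1) • e = e' := by
        refine hsep _ h4 _ he' ?_
        calc dist (p ^ (n + 1) • e) e' ≤ dist (p ^ (n + 1) • y) (p ^ (n + 1) • e)
              + dist (p ^ (n + 1) • y) e' := dist_triangle_left _ _ _
          _ < p * c + c := by
              rw [h5]
              have := mul_lt_mul_of_pos_left h2 hp0
              linarith
          _ ≤ η := by linarith
      refine ⟨h4, by rw [h6]; exact hye', ?_⟩
      rw [h5, h3, pow_succ']; ring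
  obtain ⟨-, h2, h3⟩ := key m le_rfl
  exact ⟨e, he, by linarith⟩

/-- a common order for the points of a finite invariant set -/
lemma common_order {p : ℕ} (hp : 2 ≤ p) {E : Set Circ} (hfin : E.Finite)
    (hinv : ∀ x ∈ E, p • x ∈ E) : ∃ n : ℕ, 1 ≤ n ∧ ∀ e ∈ E, n • e = 0 := by
  have htor : ∀ e ∈ E, IsOfFinAddOrder e := by
    intro e he
    by_contra hcon
    exact (infinite_of_inv hp hinv he hcon) hfin
  refine ⟨∏ e ∈ hfin.toFinset, addOrderOf e, ?_, ?_⟩
  · refine Nat.one_le_iff_ne_zero.2 (Finset.prod_ne_zero_iff.2 fun e he => ?_)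
    have := htor e (hfin.mem_toFinset.1 he)
    exact (addOrderOf_pos_iff.2 this).ne'
  · intro e he
    rw [← addOrderOf_dvd_iff_nsmul_eq_zero]
    exact Finset.dvd_prod_of_mem _ (hfin.mem_toFinset.2 he)

/-- the invariant closed set generated by a compact set -/
def gen (p : ℕ) (A : Hyp) : Set Circ := closure (⋃ t : ℕ, (fun x : Circ => p ^ t • x) '' (A : Set Circ))

lemma isClosed_gen (p : ℕ) (A : Hyp) : IsClosed (gen p A) := isClosed_closure

lemma subset_gen (p : ℕ) (A : Hyp) : (A : Set Circ) ⊆ gen p A := by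
  intro x hx
  exact subset_closure (mem_iUnion.2 ⟨0, x, hx, by simp⟩)

lemma gen_inv (p : ℕ) (A : Hyp) : ∀ x ∈ gen p A, p • x ∈ gen p A := by
  intro x hx
  refine map_mem_closure (continuous_nsmul p) hx ?_
  intro y hy
  obtain ⟨t, z, hz, rfl⟩ := mem_iUnion.1 hy
  exact mem_iUnion.2 ⟨t + 1, z, hz, by simp only [pow_succ', mul_smul]⟩

lemma gen_mul (p q : ℕ) (A : Hyp) : ∀ x ∈ gen p A, q • x ∈ gen p (mulq q A) := by
  intro x hx
  refine map_mem_closure (continuous_nsmul q) hx ?_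
  intro y hy
  obtain ⟨t, z, hz, rfl⟩ := mem_iUnion.1 hy
  exact mem_iUnion.2 ⟨t, q • z, ⟨z, hz, rfl⟩, smul_comm _ _ _⟩

lemma gen_inter_nonempty (p : ℕ) (A : Hyp) {V : Set Circ} (hV : IsOpen V) :
    (gen p A ∩ V).Nonempty ↔ ∃ t : ℕ, ((A : Set Circ) ∩ (fun x : Circ => p ^ t • x) ⁻¹' V).Nonempty := by
  constructor
  · rintro ⟨y, hy, hyV⟩
    obtain ⟨z, hzV, hz⟩ := mem_closure_iff.1 hy V hV hyV
    obtain ⟨t, a, ha, rfl⟩ := mem_iUnion.1 hz
    exact ⟨t, a, ha, hzV⟩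
  · rintro ⟨t, a, ha, haV⟩
    exact ⟨_, subset_closure (mem_iUnion.2 ⟨t, a, ha, rfl⟩), haV⟩

lemma gen_subset (p : ℕ) {A B : Hyp} (h : ∀ t : ℕ, ∀ a ∈ (A : Set Circ), p ^ t • a ∈ (B : Set Circ)) :
    gen p A ⊆ (B : Set Circ) := by
  refine closure_minimal ?_ B.isCompact.isClosed
  intro y hy
  obtain ⟨t, a, ha, rfl⟩ := mem_iUnion.1 hy
  exact h t a ha

/-- a closed condition on pairs of compact sets -/
lemma isClosed_pair (r : ℕ) : IsClosed {z : Hyp × Hyp | ∀ a ∈ (z.1 : Set Circ), r • a ∈ (z.2 : Set Circ)} := by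
  rw [← isOpen_compl_iff, isOpen_iff_forall_mem_open]
  rintro ⟨A, B⟩ hAB
  simp only [mem_compl_iff, mem_ofPred_eq, not_forall] at hAB
  obtain ⟨x, hx, hpx⟩ := hAB
  obtain ⟨V, W, hV, hW, hV', hW', hVW⟩ := SeparatedNhds.of_isCompact_isCompact
    (isCompact_singleton (x := r • x)) B.isCompact (by rw [disjoint_singleton_left]; exact hpx)
  refine ⟨{A' : Hyp | ((A' : Set Circ) ∩ (fun y : Circ => r • y) ⁻¹' V).Nonempty} ×ˢ
    {B' : Hyp | (B' : Set Circ) ⊆ W}, ?_, ?_, ?_⟩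
  · rintro ⟨A', B'⟩ ⟨⟨y, hy, hyV⟩, hBW⟩ hinv
    exact (disjoint_left.1 hVW hyV) (hBW (hinv y hy))
  · exact (NonemptyCompacts.isOpen_inter_nonempty_of_isOpen (hV.preimage (continuous_nsmul r))).prod
      (NonemptyCompacts.isOpen_subsets_of_isOpen hW)
  · exact ⟨⟨x, hx, hV' rfl⟩, hW'⟩

/-- a piece of an orbit as a compact set -/
def piece (p : ℕ) (y : Circ) (m : ℕ) : Hyp :=
  ⟨⟨(fun j : ℕ => p ^ j • y) '' Iic m, ((Set.finite_Iic m).image _).isCompact⟩,
    ⟨_, 0, Nat.zero_le _, rfl⟩⟩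

lemma coe_piece (p : ℕ) (y : Circ) (m : ℕ) :
    (piece p y m : Set Circ) = (fun j : ℕ => p ^ j • y) '' Iic m := rfl

/-- the map on pairs -/
def mul2 (q : ℕ) : Hyp × Hyp → Hyp × Hyp := Prod.map (mulq q) (mulq q)

lemma continuous_mul2 (q : ℕ) : Continuous (mul2 q) := (continuous_mulq q).prodMap (continuous_mulq q)

lemma mul2_iterate (q i : ℕ) (z : Hyp × Hyp) :
    (mul2 q)^[i] z = ((mulq q)^[i] z.1, (mulq q)^[i] z.2) := by
  rw [mul2, Prod.map_iterate]; rfl

lemma coe_iterate_piece (p q : ℕ) (y : Circ) (m i : ℕ) :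
    (((mulq q)^[i] (piece p y m) : Hyp) : Set Circ) = (fun j : ℕ => p ^ j • q ^ i • y) '' Iic m := by
  rw [coe_iterate, coe_piece, image_image]
  refine image_congr fun j _ => ?_
  exact smul_comm _ _ _

end Pool.Agent.TH419.FS
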