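import Mathlib
import Pool.Agent.TH419.FS.Core

set_option autoImplicit false

open MeasureTheory Filter Topology Set TopologicalSpace

namespace Pool.Agent.TH419.FS

open Pool.Agent.H705R2 Pool.Agent.W765.Sta Pool.Agent.W765.KB Pool.Agent.W765.Det

open Classical in
/-- Pieces of orbits: sequential form. -/
theorem core_seq {p q : ℕ} (hp : 2 ≤ p) (hq : 2 ≤ q) (h : MulIndep p q) {U : Set Circ}
    (hU : IsOpen U) (hUne : U.Nonempty) {δ : ℝ} (hδ : 0 < δ) (y : ℕ → Circ) (s n J t : ℕ → ℕ)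
    (hn0 : ∀ L, 0 < n L) (hnt : Tendsto n atTop atTop) (htt : Tendsto t atTop atTop)
    (htJ : ∀ L, t L ≤ J L)
    (hfar : ∀ E : Set Circ, E.Finite → (∀ x ∈ E, p • x ∈ E) → ∀ c : ℝ, 0 < c → ∀ᶠ L in atTop,
      ∀ i < n L, ∀ e ∈ E, c ≤ (p : ℝ) ^ (J L - t L) * dist (q ^ (s L + i) • y L) e) :
    ∃ L, (((Finset.range (n L)).filter
      (fun i => ∀ j ≤ J L, p ^ j • q ^ (s L + i) • y L ∉ U)).card : ℝ) ≤ δ * n L := by
  by_contra hcon
  push Not at hcon
  set z : ℕ → Hyp × Hyp := fun L => (piece p (y L) (J L - t L), piece p (y L) (J L)) with hz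
  have hit : ∀ L i, (mul2 q)^[i] (z L) = ((mulq q)^[i] (piece p (y L) (J L - t L)),
      (mulq q)^[i] (piece p (y L) (J L))) := fun L i => mul2_iterate q i (z L)
  obtain ⟨P, hP, hPi, hPG⟩ := kb2 (continuous_mul2 q) z s n hnt hn0
  -- the first component is mapped into the second one
  have hsub : ∀ᵐ w : Hyp × Hyp ∂P, ∀ r : ℕ, ∀ a ∈ (w.1 : Set Circ), p ^ r • a ∈ (w.2 : Set Circ) := by
    rw [ae_all_iff]
    intro r
    rw [ae_iff]
    refine le_antisymm (hPG _ (isClosed_pair (p ^ r)).isOpen_compl 0 ?_) zero_le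
    filter_upwards [htt.eventually_ge_atTop r] with L hL
    rw [emp_eq_zero (isClosed_pair (p ^ r)).isOpen_compl.measurableSet]
    intro i hi
    refine hi ?_
    rw [hit]
    simp only [mem_ofPred_eq]
    rw [coe_iterate_piece, coe_iterate_piece]
    rintro _ ⟨j, hj, rfl⟩
    rw [mem_Iic] at hj
    refine ⟨r + j, ?_, by simp only [pow_add, mul_smul]⟩
    rw [mem_Iic]
    have := htJ L
    omega
  -- the generated set is infinite
  have hinf : P {w : Hyp × Hyp | (gen p w.1).Finite} = 0 := by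
    refine measure_null_of_locally_null _ ?_
    rintro w hw
    simp only [mem_ofPred_eq] at hw
    obtain ⟨c, hc, hsh⟩ := shadow hp hw (gen_inv p w.1)
    have hopen : IsOpen {w' : Hyp × Hyp | (w'.1 : Set Circ) ⊆ Metric.thickening c (gen p w.1)} :=
      (NonemptyCompacts.isOpen_subsets_of_isOpen
        (Metric.isOpen_thickening (δ := c) (E := gen p w.1))).preimage continuous_fst
    refine ⟨_, mem_nhdsWithin_of_mem_nhds (hopen.mem_nhds
      ((subset_gen p w.1).trans (Metric.self_subset_thickening hc _))), ?_⟩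
    refine le_antisymm (hPG _ hopen 0 ?_) zero_le
    filter_upwards [hfar _ hw (gen_inv p w.1) c hc] with L hL
    rw [emp_apply hopen.measurableSet, Finset.filter_false_of_mem, Finset.card_empty]
    · simp
    intro i hi hmem
    rw [Finset.mem_range] at hi
    rw [hit] at hmem
    simp only [mem_ofPred_eq] at hmem
    rw [coe_iterate_piece] at hmem
    obtain ⟨e, he, hlt⟩ := hsh (q ^ (s L + i) • y L) (J L - t L)
      (fun j hj => hmem ⟨j, hj, rfl⟩)
    exact absurd hlt (not_lt.2 (hL i hi e he))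
  have hhit : Hit (fun w : Hyp × Hyp => gen p w.1) := by
    intro V hV
    have : {w : Hyp × Hyp | (gen p w.1 ∩ V).Nonempty} =
        ⋃ r : ℕ, Prod.fst ⁻¹' {A : Hyp | ((A : Set Circ) ∩ (fun x : Circ => p ^ r • x) ⁻¹' V).Nonempty} := by
      ext w
      simp only [mem_ofPred_eq, gen_inter_nonempty p w.1 hV, mem_iUnion, mem_preimage]
    rw [this]
    exact (isOpen_iUnion fun r => (NonemptyCompacts.isOpen_inter_nonempty_of_isOpen
      (hV.preimage (continuous_nsmul (p ^ r)))).preimage continuous_fst).measurableSet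
  have hst := stationary hp hq h hPi (F := fun w : Hyp × Hyp => gen p w.1)
    (fun w => isClosed_gen p w.1) hhit (fun w => gen_inv p w.1) (fun w => gen_mul p q w.1)
  have hinf' : ∀ᵐ w : Hyp × Hyp ∂P, ¬ (gen p w.1).Finite := by
    rw [ae_iff]; simpa using hinf
  have hG : IsOpen {w : Hyp × Hyp | ((w.2 : Set Circ) ∩ U).Nonempty} :=
    (NonemptyCompacts.isOpen_inter_nonempty_of_isOpen hU).preimage continuous_snd
  have hall : ∀ᵐ w ∂P, w ∈ {w : Hyp × Hyp | ((w.2 : Set Circ) ∩ U).Nonempty} := by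
    filter_upwards [hst, hsub, hinf'] with w h1 h2 h3
    rcases h1 with h1 | h1
    · exact absurd h1 h3
    · have h4 := gen_subset p h2
      rw [h1] at h4
      obtain ⟨u, hu⟩ := hUne
      exact ⟨u, h4 (mem_univ u), hu⟩
  have h1 : P {w : Hyp × Hyp | ((w.2 : Set Circ) ∩ U).Nonempty} = 1 :=
    (mem_ae_iff_prob_eq_one hG.measurableSet).1 hall
  have h2 := hPG _ hG (ENNReal.ofReal (1 - δ)) (Eventually.of_forall fun L => ?_)
  · rw [h1] at h2
    have : ENNReal.ofReal (1 - δ) < 1 := by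
      rw [ENNReal.ofReal_lt_one]; linarith
    exact absurd h2 (not_le.2 this)
  · rw [emp_apply hG.measurableSet]
    have h3 := Finset.card_filter_add_card_filter_not (s := Finset.range (n L))
      (fun i => ∀ j ≤ J L, p ^ j • q ^ (s L + i) • y L ∉ U)
    rw [Finset.card_range] at h3
    have h4 : (Finset.range (n L)).filter (fun i => (mul2 q)^[s L + i] (z L) ∈
        {w : Hyp × Hyp | ((w.2 : Set Circ) ∩ U).Nonempty}) =
        (Finset.range (n L)).filter (fun i => ¬ ∀ j ≤ J L, p ^ j • q ^ (s L + i) • y L ∉ U) := by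
      refine Finset.filter_congr fun i _ => ?_
      rw [hit]
      simp only [mem_ofPred_eq]
      rw [coe_iterate_piece]
      push Not
      constructor
      · rintro ⟨_, ⟨j, hj, rfl⟩, hxU⟩; exact ⟨j, hj, hxU⟩
      · rintro ⟨j, hj, hxU⟩; exact ⟨_, ⟨j, hj, rfl⟩, hxU⟩
    rw [h4]
    have h5 := hcon L
    set a := ((Finset.range (n L)).filter (fun i => ∀ j ≤ J L, p ^ j • q ^ (s L + i) • y L ∉ U)).card with ha
    set b := ((Finset.range (n L)).filter (fun i => ¬ ∀ j ≤ J L, p ^ j • q ^ (s L + i) • y L ∉ U)).card with hb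
    have hnR : (0 : ℝ) < n L := by exact_mod_cast hn0 L
    have h6 : (b : ℝ) / n L ≤ 1 - δ := by
      have h7 : (a : ℝ) + b = n L := by exact_mod_cast h3
      rw [div_le_iff₀ hnR]; nlinarith
    calc ((n L : ENNReal))⁻¹ * b = ENNReal.ofReal ((b : ℝ) / n L) := by
          rw [ENNReal.ofReal_div_of_pos hnR, ENNReal.ofReal_natCast, ENNReal.ofReal_natCast,
            ENNReal.div_eq_inv_mul]
      _ ≤ ENNReal.ofReal (1 - δ) := ENNReal.ofReal_le_ofReal h6

end Pool.Agent.TH419.FS
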