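import Mathlib
import Pool.Agent.TH419.FS.Core2

set_option autoImplicit false

open MeasureTheory Filter Topology Set TopologicalSpace

namespace Pool.Agent.TH419.FS

open Pool.Agent.H705R2 Pool.Agent.W765.Sta Pool.Agent.W765.KB Pool.Agent.W765.Det

lemma sqrt_small {a : ℝ} (ha : 0 < a) (K : ℝ) : ∀ᶠ m : ℕ in atTop, K + (Nat.sqrt m : ℝ) ≤ a * m := by
  have h1 : ∀ᶠ m : ℕ in atTop, 2 * K / a ≤ m := tendsto_natCast_atTop_atTop.eventually_ge_atTop _
  have h2 : ∀ᶠ m : ℕ in atTop, 4 / a ^ 2 ≤ m := tendsto_natCast_atTop_atTop.eventually_ge_atTop _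
  filter_upwards [h1, h2] with m hm1 hm2
  rw [div_le_iff₀ ha] at hm1
  rw [div_le_iff₀ (by positivity)] at hm2
  have h3 : ((Nat.sqrt m : ℝ)) * (Nat.sqrt m : ℝ) ≤ m := by exact_mod_cast Nat.sqrt_le m
  have h4 : (Nat.sqrt m : ℝ) ≤ a / 2 * m := by
    by_cases hr : 2 / a ≤ (Nat.sqrt m : ℝ)
    · rw [div_le_iff₀ ha] at hr
      have h0 : (0 : ℝ) ≤ Nat.sqrt m := Nat.cast_nonneg _
      nlinarith
    · push Not at hr
      rw [lt_div_iff₀ ha] at hr
      have : (Nat.sqrt m : ℝ) * a ≤ (a / 2 * m) * a := by nlinarith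
      exact le_of_mul_le_mul_right this ha
  nlinarith

open Classical in
/-- Finite scales: for a number which is not well approximated by the rational numbers with
denominators `n p ^ N q ^ i`, most of the points `q ^ i x` visit `U` under `x ↦ p x` in a time which is
linear in `i`. -/
theorem finite_scale {p q : ℕ} (hp : 2 ≤ p) (hq : 2 ≤ q) (h : MulIndep p q) {U : Set Circ}
    (hU : IsOpen U) (hUne : U.Nonempty) {δ : ℝ} (hδ : 0 < δ) {lam C : ℝ} {κ : ℕ → ℝ}
    (hlam : 0 ≤ lam) (hκ : ∀ n, 0 < κ n) (hC : lam < C) :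
    ∃ M0 : ℕ, ∀ x : ℝ, (∀ n : ℕ, 1 ≤ n → ∀ (a i : ℕ) (m : ℤ),
        κ n ≤ ((p : ℝ) ^ a * (q : ℝ) ^ i) ^ lam * |n * ((p : ℝ) ^ a * (q : ℝ) ^ i) * x - m|) →
      ∀ s N M : ℕ, M0 ≤ M →
        (((Finset.range M).filter (fun i => ∀ j : ℕ,
          (j : ℝ) ≤ C * (N + (s + M) * (Real.log q / Real.log p)) →
            p ^ j • q ^ (s + i) • p ^ N • (x : Circ) ∉ U)).card : ℝ) ≤ δ * M := by
  by_contra hcon
  push Not at hcon
  choose x hx s N n hn hcard using fun L : ℕ => hcon (L + 1)
  have hpR : (1 : ℝ) < p := by exact_mod_cast (by omega : 1 < p)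
  have hqR : (1 : ℝ) < q := by exact_mod_cast (by omega : 1 < q)
  have hlp : 0 < Real.log p := Real.log_pos hpR
  have hlq : 0 < Real.log q := Real.log_pos hqR
  set ell : ℝ := Real.log q / Real.log p with hell
  have hell0 : 0 < ell := div_pos hlq hlp
  have hC0 : 0 < C := lt_of_le_of_lt hlam hC
  have hn0 : ∀ L, 0 < n L := fun L => by have := hn L; omega
  have hnt : Tendsto n atTop atTop :=
    tendsto_atTop_mono (fun L => by have := hn L; simp only [id]; omega) tendsto_id
  set Y : ℕ → ℝ := fun L => N L + (s L + n L) * ell with hY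
  have hYn : ∀ L, n L * ell ≤ Y L := by
    intro L
    have h1 : (0 : ℝ) ≤ N L := Nat.cast_nonneg _
    have h2 : (0 : ℝ) ≤ s L := Nat.cast_nonneg _
    simp only [hY]
    nlinarith
  have hY0 : ∀ L, 0 ≤ Y L := fun L => le_trans (by positivity) (hYn L)
  set J : ℕ → ℕ := fun L => ⌊C * Y L⌋₊ with hJ
  set t : ℕ → ℕ := fun L => min (Nat.sqrt (n L)) (J L) with ht
  have htJ : ∀ L, t L ≤ J L := fun L => min_le_right _ _
  have hsqt : Tendsto (fun L => Nat.sqrt (n L)) atTop atTop := by
    refine tendsto_atTop.2 fun r => ?_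
    filter_upwards [hnt.eventually_ge_atTop (r * r)] with L hL
    exact Nat.le_sqrt.2 hL
  have hJt : Tendsto J atTop atTop := by
    refine tendsto_atTop.2 fun r => ?_
    have h1 : Tendsto (fun L => C * ell * (n L : ℝ)) atTop atTop :=
      (tendsto_natCast_atTop_atTop.comp hnt).const_mul_atTop (by positivity)
    filter_upwards [h1.eventually_ge_atTop (r : ℝ)] with L hL
    refine Nat.le_floor ?_
    have := hYn L
    nlinarith
  have htt : Tendsto t atTop atTop := by
    refine tendsto_atTop.2 fun r => ?_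
    filter_upwards [hsqt.eventually_ge_atTop r, hJt.eventually_ge_atTop r] with L h1 h2
    exact le_min h1 h2
  set y : ℕ → Circ := fun L => p ^ (N L) • (x L : Circ) with hy
  have hfar : ∀ E : Set Circ, E.Finite → (∀ x ∈ E, p • x ∈ E) → ∀ c : ℝ, 0 < c → ∀ᶠ L in atTop,
      ∀ i < n L, ∀ e ∈ E, c ≤ (p : ℝ) ^ (J L - t L) * dist (q ^ (s L + i) • y L) e := by
    intro E hE hEinv c hc
    obtain ⟨n0, hn01, hn0E⟩ := common_order hp hE hEinv
    have hn0R : (1 : ℝ) ≤ n0 := by exact_mod_cast hn01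
    have hn0p : (0 : ℝ) < n0 := by linarith
    set k0 : ℝ := κ n0 with hk0
    have hk0p : 0 < k0 := hκ n0
    set K1 : ℝ := Real.log (c * n0 / k0) / Real.log p + 1 with hK1
    have hsm := sqrt_small (a := (C - lam) * ell) (mul_pos (by linarith) hell0) K1
    filter_upwards [hnt.eventually hsm] with L hL
    intro i hi e he
    -- the denominator
    set D : ℝ := (p : ℝ) ^ (N L) * (q : ℝ) ^ (s L + i) with hD
    have hDR : (1 : ℝ) ≤ D := one_le_mul_of_one_le_of_one_le (one_le_pow₀ hpR.le)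
      (one_le_pow₀ hqR.le)
    have hD0 : (0 : ℝ) < D := by linarith
    have e1 : ((n0 * D * x L : ℝ) : Circ) = n0 • (q ^ (s L + i) • y L) := by
      rw [hy]
      simp only [smul_smul]
      rw [← AddCircle.coe_nsmul, nsmul_eq_mul, hD]
      congr 2
      push_cast
      ring
    have e2 : ‖(((n0 * D * x L : ℝ)) : Circ)‖ = |n0 * D * x L - round (n0 * D * x L)| :=
      UnitAddCircle.norm_eq
    have h1 := hx L n0 hn01 (N L) (s L + i) (round ((n0 : ℝ) * D * x L))
    rw [← hD, ← hk0] at h1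
    rw [← e2, e1] at h1
    have e3 : n0 • (q ^ (s L + i) • y L) = n0 • (q ^ (s L + i) • y L - e) := by
      rw [smul_sub, hn0E e he, sub_zero]
    have h2 : ‖n0 • (q ^ (s L + i) • y L)‖ ≤ n0 * dist (q ^ (s L + i) • y L) e := by
      rw [e3, dist_eq_norm]
      exact norm_nsmul_le
    set dd : ℝ := dist (q ^ (s L + i) • y L) e with hdd
    have hDl : (0 : ℝ) < D ^ lam := Real.rpow_pos_of_pos hD0 _
    have h3 : k0 ≤ D ^ lam * (n0 * dd) :=
      h1.trans (mul_le_mul_of_nonneg_left h2 hDl.le)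
    -- the size of the denominator
    have h4 : Real.log D ≤ Real.log p * Y L := by
      rw [hD, Real.log_mul (by positivity) (by positivity), Real.log_pow, Real.log_pow]
      have e4 : Real.log p * Y L = N L * Real.log p + (s L + n L) * Real.log q := by
        simp only [hY, hell]; field_simp
      rw [e4]
      have h5 : ((s L + i : ℕ) : ℝ) ≤ s L + n L := by
        have : (i : ℝ) ≤ n L := by exact_mod_cast hi.le
        push_cast; linarith
      have := mul_le_mul_of_nonneg_right h5 hlq.le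
      linarith
    -- the length of the piece
    have h5 : C * Y L - 1 - t L ≤ ((J L - t L : ℕ) : ℝ) := by
      rw [Nat.cast_sub (htJ L)]
      have : C * Y L < J L + 1 := Nat.lt_floor_add_one _
      linarith
    have h6 : (t L : ℝ) ≤ (Nat.sqrt (n L) : ℝ) := by exact_mod_cast min_le_left _ _
    have h7 : K1 + t L ≤ (C - lam) * Y L := by
      have h8 : (C - lam) * (n L * ell) ≤ (C - lam) * Y L :=
        mul_le_mul_of_nonneg_left (hYn L) (by linarith)
      have e8 : (C - lam) * ell * (n L : ℝ) = (C - lam) * (n L * ell) := by ring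
      rw [e8] at hL
      linarith
    have h8 : Real.log (c * n0 / k0) + lam * Real.log D ≤ ((J L - t L : ℕ) : ℝ) * Real.log p := by
      have h9 : Real.log (c * n0 / k0) / Real.log p + lam * Y L ≤ ((J L - t L : ℕ) : ℝ) := by
        have e9 : (C - lam) * Y L = C * Y L - lam * Y L := by ring
        rw [hK1, e9] at h7
        linarith
      have h10 := mul_le_mul_of_nonneg_right h9 hlp.le
      have h11 := mul_le_mul_of_nonneg_left h4 hlam
      have e5 : (Real.log (c * n0 / k0) / Real.log p + lam * Y L) * Real.log p =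
          Real.log (c * n0 / k0) + lam * (Real.log p * Y L) := by
        field_simp
      rw [e5] at h10
      linarith
    have h9 : c * n0 / k0 * D ^ lam ≤ (p : ℝ) ^ (J L - t L) := by
      rw [← Real.log_le_log_iff (by positivity) (by positivity), Real.log_mul (by positivity)
        hDl.ne', Real.log_rpow hD0, Real.log_pow]
      exact h8
    have hdd0 : 0 ≤ dd := dist_nonneg
    have h10 : c * n0 / k0 * D ^ lam * dd ≤ (p : ℝ) ^ (J L - t L) * dd :=
      mul_le_mul_of_nonneg_right h9 hdd0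
    have h11 : c ≤ c * n0 / k0 * D ^ lam * dd := by
      have e6 : c * n0 / k0 * D ^ lam * dd = c / k0 * (D ^ lam * (n0 * dd)) := by ring
      rw [e6]
      have := mul_le_mul_of_nonneg_left h3 (by positivity : 0 ≤ c / k0)
      have e7 : c / k0 * k0 = c := by field_simp
      linarith
    exact h11.trans h10
  obtain ⟨L, hL⟩ := core_seq hp hq h hU hUne hδ y s n J t hn0 hnt htt htJ hfar
  refine absurd hL (not_le.2 (lt_of_lt_of_le (hcard L) ?_))
  have hsub : (Finset.range (n L)).filter (fun i => ∀ j : ℕ,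
      (j : ℝ) ≤ C * (N L + (s L + n L) * ell) → p ^ j • q ^ (s L + i) • p ^ (N L) • (x L : Circ) ∉ U) ⊆
      (Finset.range (n L)).filter (fun i => ∀ j ≤ J L, p ^ j • q ^ (s L + i) • y L ∉ U) := by
    intro i hi
    rw [Finset.mem_filter] at hi ⊢
    refine ⟨hi.1, fun j hj => hi.2 j ?_⟩
    have h1 : (j : ℝ) ≤ (J L : ℝ) := by exact_mod_cast hj
    exact h1.trans (Nat.floor_le (mul_nonneg hC0.le (hY0 L)))
  exact_mod_cast Finset.card_le_card hsub

end Pool.Agent.TH419.FS
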