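import Mathlib
import Pool.Agent.TH419.FS.Core3

set_option autoImplicit false

open MeasureTheory Filter Topology Set TopologicalSpace

namespace Pool.Agent.TH419.FS

open Pool.Agent.H705R2 Pool.Agent.W765.Sta Pool.Agent.W765.KB Pool.Agent.W765.Det

/-- the open arc of the numbers whose first digits are given -/
def arcW (B W : ℕ) : Set Circ := (fun t : ℝ => (t : Circ)) '' Ioo ((W : ℝ) / B) (((W : ℝ) + 1) / B)

lemma isOpen_arcW (B W : ℕ) : IsOpen (arcW B W) := QuotientAddGroup.isOpenMap_coe _ isOpen_Ioo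

lemma arcW_nonempty {B : ℕ} (hB : 0 < B) (W : ℕ) : (arcW B W).Nonempty := by
  have : (0 : ℝ) < B := by exact_mod_cast hB
  refine Nonempty.image _ (nonempty_Ioo.2 ?_)
  exact div_lt_div_of_pos_right (by linarith) this

lemma floor_of_mem_arcW {B W : ℕ} (hB : 0 < B) (hW : W < B) {r : ℝ} (h : (r : Circ) ∈ arcW B W) :
    ⌊(B : ℝ) * r⌋ % (B : ℤ) = (W : ℤ) := by
  obtain ⟨t, ⟨ht1, ht2⟩, ht⟩ := h
  have hBR : (0 : ℝ) < B := by exact_mod_cast hB
  have ht' : ((r - t : ℝ) : Circ) = 0 := by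
    rw [AddCircle.coe_sub, ← ht, sub_self]
  rw [AddCircle.coe_eq_zero_iff] at ht'
  obtain ⟨m, hm⟩ := ht'
  simp only [zsmul_eq_mul, mul_one] at hm
  have hr : (B : ℝ) * r = (B : ℝ) * t + ((B * m : ℤ) : ℝ) := by
    push_cast
    rw [hm]; ring
  rw [div_lt_iff₀ hBR] at ht1
  rw [lt_div_iff₀ hBR] at ht2
  have hf : ⌊(B : ℝ) * t⌋ = (W : ℤ) := by
    rw [Int.floor_eq_iff]
    push_cast
    constructor <;> linarith
  rw [hr, Int.floor_add_intCast, hf, Int.add_mul_emod_self_left]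
  exact Int.emod_eq_of_lt (by positivity) (by exact_mod_cast hW)

open Classical in
/-- all words at once, in a block of exponents -/
theorem block {b c : ℕ} (hb : 2 ≤ b) (hc : 2 ≤ c) (h : MulIndep b c) {δ : ℝ} (hδ : 0 < δ)
    {lam C : ℝ} {κ : ℕ → ℝ} (hlam : 0 ≤ lam) (hκ : ∀ n, 0 < κ n) (hC : lam < C) (k : ℕ) :
    ∃ M0 : ℕ, ∀ x : ℝ, (∀ n : ℕ, 1 ≤ n → ∀ (a i : ℕ) (m : ℤ),
        κ n ≤ ((b : ℝ) ^ a * (c : ℝ) ^ i) ^ lam * |n * ((b : ℝ) ^ a * (c : ℝ) ^ i) * x - m|) →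
      ∀ s N M : ℕ, M0 ≤ M →
        (((Finset.range M).filter (fun i : ℕ => ¬ ∀ W : ℕ, W < b ^ k → ∃ j : ℕ, N ≤ j ∧
          (j : ℝ) ≤ N + C * (N + (s + M) * (Real.log c / Real.log b)) ∧
          ⌊(b : ℝ) ^ (j + k) * ((c : ℝ) ^ (s + i) * x)⌋ % ((b : ℤ) ^ k) = (W : ℤ))).card : ℝ)
            ≤ δ * M := by
  have hbk : 0 < b ^ k := by positivity
  have hbkR : (0 : ℝ) < (b ^ k : ℕ) := by exact_mod_cast hbk
  have hδ' : 0 < δ / (b ^ k : ℕ) := by positivity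
  choose M0 hM0 using fun W : ℕ => finite_scale hb hc h (isOpen_arcW (b ^ k) W)
    (arcW_nonempty hbk W) hδ' hlam hκ hC
  refine ⟨∑ W ∈ Finset.range (b ^ k), M0 W, fun x hx s N M hM => ?_⟩
  have hMW : ∀ W ∈ Finset.range (b ^ k), M0 W ≤ M := fun W hW =>
    (Finset.single_le_sum (fun _ _ => Nat.zero_le _) hW).trans hM
  set A : ℕ → Finset ℕ := fun W => (Finset.range M).filter (fun i => ∀ j : ℕ,
    (j : ℝ) ≤ C * (N + (s + M) * (Real.log c / Real.log b)) →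
      b ^ j • c ^ (s + i) • b ^ N • (x : Circ) ∉ arcW (b ^ k) W) with hA
  have hsub : (Finset.range M).filter (fun i : ℕ => ¬ ∀ W : ℕ, W < b ^ k → ∃ j : ℕ, N ≤ j ∧
      (j : ℝ) ≤ N + C * (N + (s + M) * (Real.log c / Real.log b)) ∧
      ⌊(b : ℝ) ^ (j + k) * ((c : ℝ) ^ (s + i) * x)⌋ % ((b : ℤ) ^ k) = (W : ℤ)) ⊆
      (Finset.range (b ^ k)).biUnion A := by
    intro i hi
    rw [Finset.mem_filter] at hi
    obtain ⟨hiM, hi⟩ := hi
    push Not at hi
    obtain ⟨W, hW, hno⟩ := hi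
    rw [Finset.mem_biUnion]
    refine ⟨W, Finset.mem_range.2 hW, Finset.mem_filter.2 ⟨hiM, fun j hj hmem => ?_⟩⟩
    refine hno (N + j) (by omega) (by push_cast; linarith) ?_
    have e1 : b ^ j • c ^ (s + i) • b ^ N • (x : Circ) =
        (((b : ℝ) ^ (N + j) * ((c : ℝ) ^ (s + i) * x) : ℝ) : Circ) := by
      simp only [smul_smul]
      rw [← AddCircle.coe_nsmul, nsmul_eq_mul]
      congr 1
      push_cast
      ring
    rw [e1] at hmem
    have h2 := floor_of_mem_arcW hbk hW hmem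
    have e2 : ((b ^ k : ℕ) : ℝ) * ((b : ℝ) ^ (N + j) * ((c : ℝ) ^ (s + i) * x)) =
        (b : ℝ) ^ (N + j + k) * ((c : ℝ) ^ (s + i) * x) := by
      push_cast
      ring
    rw [e2] at h2
    push_cast at h2
    exact h2
  have h1 : (((Finset.range (b ^ k)).biUnion A).card : ℝ) ≤
      ∑ W ∈ Finset.range (b ^ k), (δ / (b ^ k : ℕ) * M) := by
    refine le_trans (Nat.cast_le.2 Finset.card_biUnion_le) ?_
    rw [Nat.cast_sum]
    exact Finset.sum_le_sum fun W hW => hM0 W x hx s N M (hMW W hW)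
  refine le_trans (by exact_mod_cast Finset.card_le_card hsub) (h1.trans (le_of_eq ?_))
  rw [Finset.sum_const, Finset.card_range, nsmul_eq_mul]
  field_simp

open Classical in
/-- all words at once, with a bound for the places which depends on the exponent only -/
theorem words {b c : ℕ} (hb : 2 ≤ b) (hc : 2 ≤ c) (h : MulIndep b c) {δ : ℝ} (hδ : 0 < δ)
    {lam C : ℝ} {κ : ℕ → ℝ} (hlam : 0 ≤ lam) (hκ : ∀ n, 0 < κ n) (hC : lam < C) (k : ℕ) :
    ∃ M0 : ℕ, ∀ x : ℝ, (∀ n : ℕ, 1 ≤ n → ∀ (a i : ℕ) (m : ℤ),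
        κ n ≤ ((b : ℝ) ^ a * (c : ℝ) ^ i) ^ lam * |n * ((b : ℝ) ^ a * (c : ℝ) ^ i) * x - m|) →
      ∀ s N M : ℕ, M0 ≤ M →
        (((Finset.range M).filter (fun i : ℕ => ¬ ∀ W : ℕ, W < b ^ k → ∃ j : ℕ, N ≤ j ∧
          (j : ℝ) ≤ N + C * (N + (s + i) * (Real.log c / Real.log b)) ∧
          ⌊(b : ℝ) ^ (j + k) * ((c : ℝ) ^ (s + i) * x)⌋ % ((b : ℤ) ^ k) = (W : ℤ))).card : ℝ)
            ≤ δ * M := by
  have hpR : (1 : ℝ) < b := by exact_mod_cast (by omega : 1 < b)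
  have hqR : (1 : ℝ) < c := by exact_mod_cast (by omega : 1 < c)
  set ell : ℝ := Real.log c / Real.log b with hell
  have hell0 : 0 < ell := div_pos (Real.log_pos hqR) (Real.log_pos hpR)
  set C' : ℝ := (lam + C) / 2 with hC'
  have hC'1 : lam < C' := by rw [hC']; linarith
  have hC'2 : C' < C := by rw [hC']; linarith
  have hC'0 : 0 < C' := lt_of_le_of_lt hlam hC'1
  obtain ⟨M1', hM1'⟩ := block hb hc h (δ := δ / 4) (by positivity) hlam hκ hC'1 k
  set M1 : ℕ := M1' + 1 with hM1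
  have hM1pos : (0 : ℝ) < M1 := by rw [hM1]; positivity
  have hblk := fun x hx s N => hM1' x hx s N M1 (by omega)
  set I0 : ℕ := ⌈C' * M1 / (C - C')⌉₊ with hI0
  have hI0' : C' * M1 ≤ (C - C') * I0 := by
    have := Nat.le_ceil (C' * M1 / (C - C'))
    rw [div_le_iff₀ (by linarith)] at this
    rw [hI0]; linarith
  obtain ⟨M0, hM0⟩ := exists_nat_ge ((I0 + M1 + δ / 4 * M1) / (3 * δ / 4))
  refine ⟨M0, fun x hx s N M hM => ?_⟩
  set Bl : ℕ → Finset ℕ := fun g => (Finset.range M1).filter (fun r => ¬ ∀ W : ℕ, W < b ^ k →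
    ∃ j : ℕ, N ≤ j ∧ (j : ℝ) ≤ N + C' * (N + (((s + g * M1 : ℕ) : ℝ) + M1) * ell) ∧
      ⌊(b : ℝ) ^ (j + k) * ((c : ℝ) ^ (s + g * M1 + r) * x)⌋ % ((b : ℤ) ^ k) = (W : ℤ)) with hBl
  have hBlc : ∀ g, ((Bl g).card : ℝ) ≤ δ / 4 * M1 := fun g => hblk x hx (s + g * M1) N
  have hsub : (Finset.range M).filter (fun i : ℕ => ¬ ∀ W : ℕ, W < b ^ k → ∃ j : ℕ, N ≤ j ∧
          (j : ℝ) ≤ N + C * (N + (s + i) * ell) ∧
          ⌊(b : ℝ) ^ (j + k) * ((c : ℝ) ^ (s + i) * x)⌋ % ((b : ℤ) ^ k) = (W : ℤ)) ⊆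
      Finset.range (I0 + M1) ∪
        (Finset.range (M / M1 + 1)).biUnion (fun g => (Bl g).image (fun r => g * M1 + r)) := by
    intro i hi
    rw [Finset.mem_filter, Finset.mem_range] at hi
    obtain ⟨hiM, hi⟩ := hi
    rw [Finset.mem_union]
    by_cases hsmall : i < I0 + M1
    · left; exact Finset.mem_range.2 hsmall
    right
    rw [Finset.mem_biUnion]
    have hdiv : i / M1 * M1 + i % M1 = i := Nat.div_add_mod' i M1
    have hmod : i % M1 < M1 := Nat.mod_lt _ (by omega)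
    refine ⟨i / M1, ?_, ?_⟩
    · rw [Finset.mem_range]
      have := Nat.div_le_div_right (c := M1) hiM.le
      omega
    rw [Finset.mem_image]
    refine ⟨i % M1, ?_, hdiv⟩
    rw [hBl, Finset.mem_filter, Finset.mem_range]
    refine ⟨hmod, fun hall => hi fun W hW => ?_⟩
    obtain ⟨j, hj1, hj2, hj3⟩ := hall W hW
    refine ⟨j, hj1, ?_, ?_⟩
    · have hg : I0 ≤ i / M1 * M1 := by omega
      have hgR : (I0 : ℝ) ≤ ((i / M1 * M1 : ℕ) : ℝ) := by exact_mod_cast hg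
      have hiR : ((i / M1 * M1 : ℕ) : ℝ) ≤ i := by exact_mod_cast (by omega : i / M1 * M1 ≤ i)
      set G : ℝ := ((i / M1 * M1 : ℕ) : ℝ) with hG
      have e1 : ((s + i / M1 * M1 : ℕ) : ℝ) = s + G := by rw [hG]; push_cast; ring
      rw [e1] at hj2
      have hN0 : (0 : ℝ) ≤ N := Nat.cast_nonneg _
      have hs0 : (0 : ℝ) ≤ s := Nat.cast_nonneg _
      have hI00 : (0 : ℝ) ≤ I0 := Nat.cast_nonneg _
      have k1 : C' * M1 ≤ (C - C') * G :=
        hI0'.trans (mul_le_mul_of_nonneg_left hgR (by linarith))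
      have k2 : C' * M1 * ell ≤ (C - C') * G * ell := mul_le_mul_of_nonneg_right k1 hell0.le
      have k3 : 0 ≤ (C - C') * N := mul_nonneg (by linarith) hN0
      have k4 : 0 ≤ (C - C') * s * ell := mul_nonneg (mul_nonneg (by linarith) hs0) hell0.le
      have k5 : 0 ≤ C * (i - G) * ell :=
        mul_nonneg (mul_nonneg (by linarith) (by linarith)) hell0.le
      have e2 : C * (N + (s + i) * ell) - C' * (N + (s + G + M1) * ell) =
          (C - C') * N + (C - C') * s * ell + C * (i - G) * ell +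
            ((C - C') * G * ell - C' * M1 * ell) := by ring
      linarith
    · have e3 : s + i / M1 * M1 + i % M1 = s + i := by omega
      rw [e3] at hj3
      exact hj3
  have h1 : ((Finset.range (I0 + M1) ∪
        (Finset.range (M / M1 + 1)).biUnion (fun g => (Bl g).image (fun r => g * M1 + r))).card : ℝ)
      ≤ (I0 + M1) + (M / M1 + 1 : ℕ) * (δ / 4 * M1) := by
    refine le_trans (Nat.cast_le.2 (Finset.card_union_le _ _)) ?_
    rw [Nat.cast_add]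
    refine add_le_add (by rw [Finset.card_range]; push_cast; rfl) ?_
    refine le_trans (Nat.cast_le.2 Finset.card_biUnion_le) ?_
    rw [Nat.cast_sum]
    refine (Finset.sum_le_sum (g := fun _ => δ / 4 * (M1 : ℝ)) fun g _ => ?_).trans ?_
    · exact le_trans (Nat.cast_le.2 Finset.card_image_le) (hBlc g)
    · rw [Finset.sum_const, Finset.card_range, nsmul_eq_mul]
  refine le_trans (by exact_mod_cast Finset.card_le_card hsub) (h1.trans ?_)
  have h2 : ((M / M1 : ℕ) : ℝ) * M1 ≤ M := by exact_mod_cast Nat.div_mul_le_self M M1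
  have h3 : (M0 : ℝ) ≤ M := by exact_mod_cast hM
  have h4 := hM0.trans h3
  rw [div_le_iff₀ (by positivity)] at h4
  have h5 : ((M / M1 + 1 : ℕ) : ℝ) * (δ / 4 * M1) = δ / 4 * (((M / M1 : ℕ) : ℝ) * M1) + δ / 4 * M1 := by
    push_cast; ring
  rw [h5]
  have h6 := mul_le_mul_of_nonneg_left h2 (by positivity : 0 ≤ δ / 4)
  linarith

/-- from the irrationality exponent -/
theorem of_meas {b c : ℕ} (hb : 2 ≤ b) (hc : 2 ≤ c) {lam κ x : ℝ} (hlam : 0 ≤ lam)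
    (hx : ∀ n : ℕ, 1 ≤ n → ∀ m : ℤ, κ ≤ (n : ℝ) ^ lam * |n * x - m|) :
    ∀ n : ℕ, 1 ≤ n → ∀ (a i : ℕ) (m : ℤ), κ / (max n 1 : ℝ) ^ lam ≤
      ((b : ℝ) ^ a * (c : ℝ) ^ i) ^ lam * |n * ((b : ℝ) ^ a * (c : ℝ) ^ i) * x - m| := by
  intro n hn a i m
  have hnR : (1 : ℝ) ≤ n := by exact_mod_cast hn
  have hn0 : (0 : ℝ) < n := by linarith
  have hD : (0 : ℝ) < (b : ℝ) ^ a * (c : ℝ) ^ i := by positivity
  rw [max_eq_left hnR, div_le_iff₀ (Real.rpow_pos_of_pos hn0 _)]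
  have h1 := hx (n * (b ^ a * c ^ i)) (Nat.one_le_iff_ne_zero.2 (by positivity)) m
  have e : (((n * (b ^ a * c ^ i) : ℕ)) : ℝ) = n * ((b : ℝ) ^ a * (c : ℝ) ^ i) := by push_cast; ring
  rw [e, Real.mul_rpow hn0.le hD.le] at h1
  calc κ ≤ (n : ℝ) ^ lam * ((b : ℝ) ^ a * (c : ℝ) ^ i) ^ lam *
        |n * ((b : ℝ) ^ a * (c : ℝ) ^ i) * x - m| := h1
    _ = _ := by ring

end Pool.Agent.TH419.FS
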