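import Mathlib
import Pool.Agent.W180.RR.Plc

set_option autoImplicit false

/-!
Ridout's theorem for the denominators `b ^ a * c ^ i`.
-/

namespace Pool.Agent.TH419.FS

open Finset NumberField IsDedekindDomain
open Pool.Agent.W180.RR Pool.Agent.W180.OP Pool.Agent.W180.TP

lemma prod_padic_nat (S : Finset ℕ) (hS : ∀ ℓ ∈ S, ℓ.Prime) (n : ℕ) (hn : n ≠ 0)
    (hnS : n.primeFactors ⊆ S) : (n : ℝ) * ∏ ℓ ∈ S, (padicNorm ℓ (n : ℚ) : ℝ) = 1 := by
  have h2 : ∀ ℓ ∈ S, (padicNorm ℓ (n : ℚ) : ℝ) = ((ℓ : ℝ) ^ n.factorization ℓ)⁻¹ := by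
    intro ℓ hℓ
    have hp := hS ℓ hℓ
    have : Fact ℓ.Prime := ⟨hp⟩
    rw [padicNorm.eq_zpow_of_nonzero (by exact_mod_cast hn), padicValRat.of_nat,
      Nat.factorization_def n hp, Rat.cast_zpow, Rat.cast_natCast, zpow_neg, zpow_natCast]
  rw [Finset.prod_congr rfl h2, Finset.prod_inv_distrib]
  have h3 : ∏ ℓ ∈ S, (ℓ : ℝ) ^ n.factorization ℓ = n := by
    have h4 : ∏ ℓ ∈ S, ℓ ^ n.factorization ℓ = n := by
      have h5 := Nat.prod_factorization_pow_eq_self hn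
      rw [Finsupp.prod_of_support_subset (s := S) _ (by rwa [Nat.support_factorization]) _
        (fun i _ => pow_zero i)] at h5
      exact h5
    calc ∏ ℓ ∈ S, (ℓ : ℝ) ^ n.factorization ℓ = ((∏ ℓ ∈ S, ℓ ^ n.factorization ℓ : ℕ) : ℝ) := by
          push_cast; rfl
      _ = n := by rw [h4]
  rw [h3]
  exact mul_inv_cancel₀ (by exact_mod_cast hn)

/-- Ridout's theorem for the denominators `b ^ a * c ^ i` -/
theorem ridout_units (b c : ℕ) (hb : 2 ≤ b) (hc : 2 ≤ c) (ξ : ℝ) (halg : IsAlgebraic ℚ ξ)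
    (hirr : Irrational ξ) (η : ℝ) (hη : 0 < η) :
    ∃ κ : ℝ, 0 < κ ∧ ∀ (a i : ℕ) (m : ℤ),
      κ ≤ ((b : ℝ) ^ a * (c : ℝ) ^ i) ^ η * |((b : ℝ) ^ a * (c : ℝ) ^ i) * ξ - m| := by
  classical
  have hξ0 : ξ ≠ 0 := hirr.ne_zero
  -- the field
  let K := IntermediateField.adjoin ℚ {ξ}
  have hfin : FiniteDimensional ℚ K := IntermediateField.adjoin.finiteDimensional halg.isIntegral
  have hNF : NumberField K := ⟨⟩
  let ξK : K := IntermediateField.AdjoinSimple.gen ℚ ξ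
  have hξK : (algebraMap K ℝ) ξK = ξ := IntermediateField.AdjoinSimple.algebraMap_gen ℚ ξ
  -- the primes
  let S : Finset ℕ := (b * c).primeFactors
  have hS : ∀ ℓ ∈ S, ℓ.Prime := fun ℓ hℓ => Nat.prime_of_mem_primeFactors hℓ
  have hbc0 : b * c ≠ 0 := by positivity
  have hbS : b.primeFactors ⊆ S := Nat.primeFactors_mono (dvd_mul_right b c) hbc0
  have hcS : c.primeFactors ⊆ S := Nat.primeFactors_mono (dvd_mul_left c b) hbc0
  -- the places
  have hv : ∀ i : S, ∃ v : HeightOneSpectrum (𝓞 K), fv v (i.1 : K) < 1 := fun i =>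
    exists_v i.1 (hS i.1 i.2)
  choose v hv using hv
  have hk : ∀ i : S, ∃ κ : ℝ, 0 < κ ∧ ∀ n : ℤ,
      fv (v i) (n : K) ^ κ = (padicNorm i.1 (n : ℚ) : ℝ) := fun i =>
    exists_kappa (v i) i.1 (hS i.1 i.2) (hv i)
  choose κ hκ hκ2 using hk
  let fs : S → AbsoluteValue K ℝ := fun i => powAV (fv (v i)) (fv_na (v i)) (κ i) (hκ i)
  have hfs : ∀ (i : S) (n : ℤ), fs i (n : K) = (padicNorm i.1 (n : ℚ) : ℝ) := fun i n => hκ2 i n
  let f0 : AbsoluteValue K ℝ := (AbsoluteValue.abs : AbsoluteValue ℝ ℝ).comp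
    (algebraMap K ℝ).injective
  have hf0 : ∀ x : K, f0 x = |algebraMap K ℝ x| := fun x => rfl
  have hf0i : ∀ n : ℤ, f0 (n : K) = |(n : ℝ)| := by
    intro n; rw [hf0, map_intCast]
  -- the integral multiple of the inverse
  obtain ⟨k, hk0, hkint⟩ : ∃ k : ℤ, k ≠ 0 ∧ IsIntegral ℤ ((k : ℝ) * ξ⁻¹) := by
    have hz : IsAlgebraic ℤ ξ⁻¹ := (IsFractionRing.isAlgebraic_iff ℤ ℚ ℝ).mpr halg.inv
    obtain ⟨k, hk0, hk⟩ := hz.exists_integral_multiple
    refine ⟨k, hk0, ?_⟩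
    have : (k : ℝ) * ξ⁻¹ = k • ξ⁻¹ := by simp
    rw [this]; exact hk
  let θ : K := (k : K) * ξK⁻¹
  have hθ : algebraMap K ℝ θ = (k : ℝ) * ξ⁻¹ := by
    simp only [θ, map_mul, map_intCast, map_inv₀, hξK]
  have hθint : IsIntegral ℤ θ := by
    rw [← hθ] at hkint
    exact (isIntegral_algebraMap_iff (algebraMap K ℝ).injective).1 hkint
  obtain ⟨h, hmon, heval⟩ := hθint
  have heval' : Polynomial.aeval θ h = 0 := by rw [Polynomial.aeval_def]; exact heval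
  have hmap : ∀ i n, fs i ((n : ℤ) : K) ≤ 1 := by
    intro i n
    rw [hfs]
    have : Fact (i.1).Prime := ⟨hS i.1 i.2⟩
    exact_mod_cast padicNorm.of_int n
  obtain ⟨C0, hC0, hR⟩ := ridout f0 fs (fun i => powAV_na _ _ _ _) hmap
    (fun n hn => by
      rw [hf0i]
      simp_rw [hfs]
      rw [Finset.prod_coe_sort S (fun ℓ => (padicNorm ℓ (n : ℚ) : ℝ))]
      exact prod_ge S hS n hn)
    (Polynomial.X * h) (Polynomial.monic_X.mul hmon) (by
      rw [Polynomial.monic_X.natDegree_mul hmon, Polynomial.natDegree_X]; omega)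
    θ (fun _ => 0) (by rw [map_mul, heval', mul_zero]) (by intro i; simp) η hη
  set C1 : ℝ := (1 + η) * Real.log (|(k : ℝ)| + |ξ| + 1) + Real.log (|(k : ℝ)| / |ξ|) + C0 with hC1
  refine ⟨min 1 (Real.exp (-C1)), by positivity, fun a i m => ?_⟩
  set Dn : ℕ := b ^ a * c ^ i with hDn
  have hDn0 : Dn ≠ 0 := by positivity
  have hcast : (b : ℝ) ^ a * (c : ℝ) ^ i = (Dn : ℝ) := by rw [hDn]; push_cast; ring
  rw [hcast]
  have hD1 : (1 : ℝ) ≤ Dn := by exact_mod_cast Nat.one_le_iff_ne_zero.2 hDn0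
  have hD0 : (0 : ℝ) < Dn := by linarith
  have hDη : (1 : ℝ) ≤ (Dn : ℝ) ^ η := Real.one_le_rpow hD1 hη.le
  rcases le_or_gt 1 |(Dn : ℝ) * ξ - m| with hbig | hsmall
  · refine (min_le_left _ _).trans ?_
    calc (1 : ℝ) = 1 * 1 := by ring
      _ ≤ (Dn : ℝ) ^ η * |(Dn : ℝ) * ξ - m| := by gcongr
  refine (min_le_right _ _).trans ?_
  have hdist : 0 < |(Dn : ℝ) * ξ - m| := by
    rw [abs_pos, sub_ne_zero]
    exact (hirr.natCast_mul hDn0).ne_int _
  -- coprime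
  set P : ℤ := k * Dn with hP
  have hP0 : P ≠ 0 := mul_ne_zero hk0 (by exact_mod_cast hDn0)
  set g0 : ℤ := (Int.gcd P m : ℤ) with hg0
  have hg0n : Int.gcd P m ≠ 0 := by
    rw [Ne, Int.gcd_eq_zero_iff]; exact fun h => hP0 h.1
  have hg0p : 0 < g0 := by rw [hg0]; exact_mod_cast Nat.pos_of_ne_zero hg0n
  obtain ⟨p, hp⟩ : g0 ∣ P := Int.gcd_dvd_left _ _
  obtain ⟨q, hq⟩ : g0 ∣ m := Int.gcd_dvd_right _ _
  have hcop : IsCoprime p q := by
    rw [Int.isCoprime_iff_gcd_eq_one]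
    have h1 : Int.gcd P m = Int.gcd (g0 * p) (g0 * q) := by rw [← hp, ← hq]
    rw [Int.gcd_mul_left] at h1
    have h2 : g0.natAbs = Int.gcd P m := by rw [hg0]; simp
    rw [h2] at h1
    exact (Nat.eq_of_mul_eq_mul_left (Nat.pos_of_ne_zero hg0n) (by rw [← h1, mul_one])).symm
  have hp0 : p ≠ 0 := by
    rintro rfl
    rw [mul_zero] at hp
    exact hP0 hp
  have hgR : (0 : ℝ) < g0 := by exact_mod_cast hg0p
  have hPR : (g0 : ℝ) * p = k * Dn := by
    have : ((g0 * p : ℤ) : ℝ) = ((k * Dn : ℤ) : ℝ) := by rw [← hp, hP]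
    push_cast at this
    exact this
  have hmR : (g0 : ℝ) * q = m := by
    have : ((g0 * q : ℤ) : ℝ) = ((m : ℤ) : ℝ) := by rw [← hq]
    push_cast at this
    exact this
  have hval : algebraMap K ℝ ((p : K) - θ * q) = (p : ℝ) - (k : ℝ) * ξ⁻¹ * q := by
    rw [map_sub, map_mul, hθ, map_intCast, map_intCast]
  have hval2 : (g0 : ℝ) * ((p : ℝ) - (k : ℝ) * ξ⁻¹ * q) = (k : ℝ) / ξ * ((Dn : ℝ) * ξ - m) := by
    have e1 : (g0 : ℝ) * ((p : ℝ) - (k : ℝ) * ξ⁻¹ * q) = g0 * p - k * ξ⁻¹ * (g0 * q) := by ring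
    rw [e1, hPR, hmR]
    field_simp
  have hkR : (k : ℝ) ≠ 0 := by exact_mod_cast hk0
  have hne0 : (k : ℝ) / ξ * ((Dn : ℝ) * ξ - m) ≠ 0 :=
    mul_ne_zero (div_ne_zero hkR hξ0) (abs_pos.1 hdist)
  have hne : (p : K) - θ * q ≠ 0 := by
    intro h0
    rw [h0, map_zero] at hval
    rw [← hval, mul_zero] at hval2
    exact hne0 hval2.symm
  have hR1 := hR p q hcop hne (fun _ => by
    simp only [zero_mul, sub_zero]
    exact_mod_cast hp0)
  -- the archimedean part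
  have hf0v : f0 ((p : K) - θ * q) = |(k : ℝ)| / |ξ| * |(Dn : ℝ) * ξ - m| / g0 := by
    rw [hf0, hval]
    have : (p : ℝ) - (k : ℝ) * ξ⁻¹ * q = (k : ℝ) / ξ * ((Dn : ℝ) * ξ - m) / g0 := by
      rw [← hval2]; field_simp
    rw [this, abs_div, abs_mul, abs_div, abs_of_pos hgR]
  have hHH1 : 1 ≤ HH p q := HH_ge_one (Or.inl hp0)
  have hHH0 : 0 < HH p q := by linarith
  have hHH : HH p q ≤ (|(k : ℝ)| + |ξ| + 1) * Dn / g0 := by
    unfold HH
    rw [le_div_iff₀ hgR]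
    have e1 : |(p : ℝ)| * g0 = |(k : ℝ)| * Dn := by
      rw [← abs_of_pos hgR, ← abs_mul, mul_comm (p : ℝ), hPR, abs_mul, abs_of_pos hD0]
    have e2 : |(q : ℝ)| * g0 = |(m : ℝ)| := by
      rw [← abs_of_pos hgR, ← abs_mul, mul_comm (q : ℝ), hmR]
    have e3 : |(m : ℝ)| ≤ Dn * |ξ| + 1 := by
      have : (m : ℝ) = Dn * ξ - (Dn * ξ - m) := by ring
      rw [this]
      refine (abs_sub _ _).trans ?_
      rw [abs_mul, abs_of_pos hD0]
      linarith
    rw [max_mul_of_nonneg _ _ hgR.le, e1, e2]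
    refine max_le ?_ ?_
    · have := abs_nonneg ξ
      nlinarith
    · have := abs_nonneg (k : ℝ)
      nlinarith
  have hlogHH : Real.log (HH p q) ≤ Real.log (|(k : ℝ)| + |ξ| + 1) + Real.log Dn - Real.log g0 := by
    have h1 := Real.log_le_log hHH0 hHH
    have hpos : 0 < |(k : ℝ)| + |ξ| + 1 := by positivity
    rwa [Real.log_div (by positivity) hgR.ne', Real.log_mul hpos.ne' hD0.ne'] at h1
  -- the finite part
  have hprodS : ∑ i : S, -Real.log (fs i ((p : K) - 0 * q)) ≥ Real.log Dn - Real.log g0 := by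
    have e1 : ∀ i : S, fs i ((p : K) - 0 * q) = (padicNorm i.1 (p : ℚ) : ℝ) := by
      intro i; rw [zero_mul, sub_zero, hfs]
    simp_rw [e1]
    rw [Finset.sum_coe_sort S (fun ℓ => -Real.log (padicNorm ℓ (p : ℚ) : ℝ)),
      Finset.sum_neg_distrib, ← Real.log_prod]
    · -- the product
      have hmulp : ∀ ℓ ∈ S, (padicNorm ℓ (g0 : ℚ) : ℝ) * (padicNorm ℓ (p : ℚ) : ℝ) =
          (padicNorm ℓ (k : ℚ) : ℝ) * (padicNorm ℓ (Dn : ℚ) : ℝ) := by
        intro ℓ hℓ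
        have : Fact ℓ.Prime := ⟨hS ℓ hℓ⟩
        rw [← Rat.cast_mul, ← Rat.cast_mul, ← padicNorm.mul, ← padicNorm.mul]
        congr 2
        exact_mod_cast hp.symm
      have hprod := Finset.prod_congr rfl hmulp
      rw [Finset.prod_mul_distrib, Finset.prod_mul_distrib] at hprod
      have hDle : (Dn : ℝ) * ∏ ℓ ∈ S, (padicNorm ℓ (Dn : ℚ) : ℝ) = 1 := by
        refine prod_padic_nat S hS Dn hDn0 ?_
        intro ℓ hℓ
        have hℓp := Nat.prime_of_mem_primeFactors hℓ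
        have hdvd := Nat.dvd_of_mem_primeFactors hℓ
        rw [hDn] at hdvd
        rcases (Nat.Prime.dvd_mul hℓp).1 hdvd with h1 | h1
        · exact hbS (Nat.mem_primeFactors.2 ⟨hℓp, hℓp.dvd_of_dvd_pow h1, by omega⟩)
        · exact hcS (Nat.mem_primeFactors.2 ⟨hℓp, hℓp.dvd_of_dvd_pow h1, by omega⟩)
      have hgge := prod_ge S hS g0 hg0p.ne'
      rw [abs_of_pos hgR] at hgge
      have hkle : ∏ ℓ ∈ S, (padicNorm ℓ (k : ℚ) : ℝ) ≤ 1 := by
        refine Finset.prod_le_one (fun ℓ hℓ => ?_) (fun ℓ hℓ => ?_)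
        · exact_mod_cast padicNorm.nonneg _
        · have : Fact ℓ.Prime := ⟨hS ℓ hℓ⟩
          exact_mod_cast padicNorm.of_int k
      set prg := ∏ ℓ ∈ S, (padicNorm ℓ (g0 : ℚ) : ℝ) with hprg
      set prp := ∏ ℓ ∈ S, (padicNorm ℓ (p : ℚ) : ℝ) with hprp
      set prk := ∏ ℓ ∈ S, (padicNorm ℓ (k : ℚ) : ℝ) with hprk
      set prD := ∏ ℓ ∈ S, (padicNorm ℓ (Dn : ℚ) : ℝ) with hprD
      have hprp0 : 0 < prp := by
        refine Finset.prod_pos fun ℓ hℓ => ?_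
        have : Fact ℓ.Prime := ⟨hS ℓ hℓ⟩
        have h1 : 0 ≤ padicNorm ℓ (p : ℚ) := padicNorm.nonneg _
        have h2 : padicNorm ℓ (p : ℚ) ≠ 0 := padicNorm.nonzero (by exact_mod_cast hp0)
        exact_mod_cast lt_of_le_of_ne h1 h2.symm
      have hprD0 : 0 < prD := by
        by_contra hcon
        push Not at hcon
        nlinarith
      have h5 : Dn * prp ≤ g0 := by
        -- Dn * prp ≤ g0 * prg * Dn * prp = g0 * prk * (Dn prD) ≤ g0
        have h6 : (Dn : ℝ) * prp ≤ (g0 * prg) * (Dn * prp) := by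
          have : 0 ≤ (Dn : ℝ) * prp := by positivity
          nlinarith
        have h7 : (g0 * prg) * (Dn * prp) = g0 * prk * (Dn * prD) := by
          calc (g0 * prg) * (Dn * prp) = g0 * Dn * (prg * prp) := by ring
            _ = g0 * Dn * (prk * prD) := by rw [hprod]
            _ = _ := by ring
        rw [h7, hDle, mul_one] at h6
        have h8 : g0 * prk ≤ g0 * 1 := mul_le_mul_of_nonneg_left hkle hgR.le
        linarith
      have h6 := Real.log_le_log (by positivity) h5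
      rw [Real.log_mul hD0.ne' hprp0.ne'] at h6
      have : (Real.log (g0 : ℝ)) = Real.log g0 := rfl
      linarith
    · intro ℓ hℓ
      have : Fact ℓ.Prime := ⟨hS ℓ hℓ⟩
      have h2 : padicNorm ℓ (p : ℚ) ≠ 0 := padicNorm.nonzero (by exact_mod_cast hp0)
      exact_mod_cast h2
  -- conclusion
  have hkξ : 0 < |(k : ℝ)| / |ξ| := div_pos (abs_pos.2 hkR) (abs_pos.2 hξ0)
  have hlogf : Real.log (f0 ((p : K) - θ * q) / HH p q) =
      Real.log (|(k : ℝ)| / |ξ|) + Real.log |(Dn : ℝ) * ξ - m| - Real.log g0 - Real.log (HH p q) := by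
    rw [hf0v, Real.log_div (by positivity) hHH0.ne', Real.log_div (by positivity) hgR.ne',
      Real.log_mul hkξ.ne' hdist.ne']
  rw [hlogf] at hR1
  have hg0log : 0 ≤ Real.log (g0 : ℝ) := Real.log_nonneg (by exact_mod_cast hg0p)
  have hfinal : -C1 ≤ η * Real.log Dn + Real.log |(Dn : ℝ) * ξ - m| := by
    have h1 : -(Real.log (|(k : ℝ)| / |ξ|)) - Real.log |(Dn : ℝ) * ξ - m| + Real.log Dn ≤
        (1 + η) * Real.log (HH p q) + C0 := by
      have e1 : (2 + η) * Real.log (HH p q) = (1 + η) * Real.log (HH p q) + Real.log (HH p q) := by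
        ring
      linarith
    have h2 : (1 + η) * Real.log (HH p q) ≤
        (1 + η) * (Real.log (|(k : ℝ)| + |ξ| + 1) + Real.log Dn - Real.log g0) :=
      mul_le_mul_of_nonneg_left hlogHH (by linarith)
    have h3 : (1 + η) * (Real.log (|(k : ℝ)| + |ξ| + 1) + Real.log Dn - Real.log g0) =
        (1 + η) * Real.log (|(k : ℝ)| + |ξ| + 1) + Real.log Dn + η * Real.log Dn -
          (1 + η) * Real.log g0 := by ring
    have h4 : 0 ≤ (1 + η) * Real.log g0 := mul_nonneg (by linarith) hg0log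
    rw [hC1]
    linarith
  rw [← Real.exp_log hdist, Real.rpow_def_of_pos hD0, ← Real.exp_add]
  exact Real.exp_le_exp.2 (by linarith)

end Pool.Agent.TH419.FS
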