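import Mathlib
import Pool.Agent.TH419.FS.RidPow
import Pool.Agent.TH419.FS.Digits

set_option autoImplicit false

/-!
The digits of the powers `c ^ n` in base `b`, at a finite scale.
-/

open MeasureTheory Filter Topology Set TopologicalSpace

namespace Pool.Agent.TH419.FS

open Pool.Agent.H705R2 Pool.Agent.W765.Sta Pool.Agent.W765.KB Pool.Agent.W765.Det

open Classical in
/-- Most of the numbers `c ^ n / b ^ K` (`n` in a window) visit `U` under multiplication by `b`. -/
theorem pow_scale {b c : ℕ} (hb : 2 ≤ b) (hc : 2 ≤ c) (h : MulIndep b c) (hbc : b.Coprime c)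
    {U : Set Circ} (hU : IsOpen U) (hUne : U.Nonempty) {δ ε : ℝ} (hδ : 0 < δ) (hε : 0 < ε) :
    ∃ M0 : ℕ, ∀ s K J M : ℕ, M0 ≤ M → (K : ℝ) ≤ s * (Real.log c / Real.log b) → J ≤ K →
      ε * (s + M) ≤ J →
        (((Finset.range M).filter (fun i => ∀ j ≤ J,
            b ^ j • c ^ (s + i) • ((1 / (b : ℝ) ^ K : ℝ) : Circ) ∉ U)).card : ℝ) ≤ δ * M := by
  by_contra hcon
  push Not at hcon
  choose s K J n hn hK hJK hJ hcard using fun L : ℕ => hcon (L + 1)
  have hbR : (1 : ℝ) < b := by exact_mod_cast (by omega : 1 < b)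
  have hcR : (1 : ℝ) < c := by exact_mod_cast (by omega : 1 < c)
  have hb0 : (0 : ℝ) < b := by linarith
  have hc0 : (0 : ℝ) < c := by linarith
  have hlb : 0 < Real.log b := Real.log_pos hbR
  have hlc : 0 < Real.log c := Real.log_pos hcR
  have hn0 : ∀ L, 0 < n L := fun L => by have := hn L; omega
  have hnt : Tendsto n atTop atTop :=
    tendsto_atTop_mono (fun L => by have := hn L; simp only [id]; omega) tendsto_id
  have hnJ : ∀ L, ε * n L ≤ J L := fun L => by
    refine le_trans ?_ (hJ L)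
    have h1 : (0 : ℝ) ≤ s L := Nat.cast_nonneg _
    nlinarith
  have hJt : Tendsto J atTop atTop := by
    refine tendsto_atTop.2 fun r => ?_
    have h1 : Tendsto (fun L => ε * (n L : ℝ)) atTop atTop :=
      (tendsto_natCast_atTop_atTop.comp hnt).const_mul_atTop hε
    filter_upwards [h1.eventually_ge_atTop (r : ℝ)] with L hL
    exact_mod_cast hL.trans (hnJ L)
  set t : ℕ → ℕ := fun L => min (Nat.sqrt (n L)) (J L) with ht
  have htJ : ∀ L, t L ≤ J L := fun L => min_le_right _ _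
  have hsqt : Tendsto (fun L => Nat.sqrt (n L)) atTop atTop := by
    refine tendsto_atTop.2 fun r => ?_
    filter_upwards [hnt.eventually_ge_atTop (r * r)] with L hL
    exact Nat.le_sqrt.2 hL
  have htt : Tendsto t atTop atTop := by
    refine tendsto_atTop.2 fun r => ?_
    filter_upwards [hsqt.eventually_ge_atTop r, hJt.eventually_ge_atTop r] with L h1 h2
    exact le_min h1 h2
  set y : ℕ → Circ := fun L => ((1 / (b : ℝ) ^ (K L) : ℝ) : Circ) with hy
  set η : ℝ := ε * Real.log b / (2 * Real.log c) with hη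
  have hη0 : 0 < η := by positivity
  have hηc : η * Real.log c = ε / 2 * Real.log b := by rw [hη]; field_simp
  have hfar : ∀ E : Set Circ, E.Finite → (∀ x ∈ E, b • x ∈ E) → ∀ c0 : ℝ, 0 < c0 → ∀ᶠ L in atTop,
      ∀ i < n L, ∀ e ∈ E, c0 ≤ (b : ℝ) ^ (J L - t L) * dist (c ^ (s L + i) • y L) e := by
    intro E hE hEinv c0 hc0
    obtain ⟨n0, hn01, hn0E⟩ := common_order hb hE hEinv
    have hn0R : (1 : ℝ) ≤ n0 := by exact_mod_cast hn01
    have hn0p : (0 : ℝ) < n0 := by linarith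
    obtain ⟨k0, hk0p, hk0⟩ := ridout_pow hb hc hbc n0 hn01 η hη0
    set K1 : ℝ := Real.log (c0 * n0 / k0) / Real.log b with hK1
    have hsm := sqrt_small (a := ε / 2) (by positivity) K1
    filter_upwards [hnt.eventually hsm, hJt.eventually_ge_atTop n0] with L hL hLn0
    intro i hi e he
    -- the power
    set D : ℝ := (c : ℝ) ^ (s L + i) with hD
    have hD0 : (0 : ℝ) < D := by positivity
    have hbK : (b : ℝ) ^ (K L) ≤ D := by
      rw [hD, ← Real.log_le_log_iff (by positivity) (by positivity), Real.log_pow, Real.log_pow]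
      have h1 := mul_le_mul_of_nonneg_right (hK L) hlb.le
      have e1 : (s L : ℝ) * (Real.log c / Real.log b) * Real.log b = s L * Real.log c := by
        field_simp
      rw [e1] at h1
      push_cast
      nlinarith [(Nat.cast_nonneg i : (0 : ℝ) ≤ (i : ℝ))]
    have hKn0 : n0 ≤ K L := hLn0.trans (hJK L)
    have e1 : ((n0 * D / (b : ℝ) ^ (K L) : ℝ) : Circ) = n0 • (c ^ (s L + i) • y L) := by
      rw [hy]
      simp only [smul_smul]
      rw [← AddCircle.coe_nsmul, nsmul_eq_mul, hD]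
      congr 1
      push_cast
      ring
    have e2 : ‖((n0 * D / (b : ℝ) ^ (K L) : ℝ) : Circ)‖ =
        |n0 * D / (b : ℝ) ^ (K L) - round (n0 * D / (b : ℝ) ^ (K L))| :=
      UnitAddCircle.norm_eq
    have h1 := hk0 (K L) (s L + i) (round (n0 * D / (b : ℝ) ^ (K L))) hbK (by
      intro heq
      have hdvd : ((b ^ (K L) : ℕ) : ℤ) ∣ ((n0 * c ^ (s L + i) : ℕ) : ℤ) :=
        ⟨round (n0 * D / (b : ℝ) ^ (K L)), by push_cast; rw [heq]; ring⟩
      have hdvd' : b ^ (K L) ∣ n0 * c ^ (s L + i) := by exact_mod_cast hdvd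
      have h2 : b ^ (K L) ∣ n0 := (Nat.Coprime.pow (K L) (s L + i) hbc).dvd_of_dvd_mul_right hdvd'
      have h3 := Nat.le_of_dvd (by omega) h2
      have h4 : K L < b ^ (K L) := Nat.lt_pow_self (by omega)
      omega)
    rw [← hD, ← e2, e1] at h1
    have e3 : n0 • (c ^ (s L + i) • y L) = n0 • (c ^ (s L + i) • y L - e) := by
      rw [smul_sub, hn0E e he, sub_zero]
    have h2 : ‖n0 • (c ^ (s L + i) • y L)‖ ≤ n0 * dist (c ^ (s L + i) • y L) e := by
      rw [e3, dist_eq_norm]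
      exact norm_nsmul_le
    set dd : ℝ := dist (c ^ (s L + i) • y L) e with hdd
    have hDl : (0 : ℝ) < D ^ η := Real.rpow_pos_of_pos hD0 _
    have h3 : k0 ≤ D ^ η * (n0 * dd) :=
      h1.trans (mul_le_mul_of_nonneg_left h2 hDl.le)
    -- the size of the power
    have h4 : η * Real.log D ≤ ε / 2 * (s L + n L) * Real.log b := by
      rw [hD, Real.log_pow]
      have h5 : ((s L + i : ℕ) : ℝ) ≤ s L + n L := by
        have : (i : ℝ) ≤ n L := by exact_mod_cast hi.le
        push_cast; linarith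
      calc η * (((s L + i : ℕ) : ℝ) * Real.log c) = ((s L + i : ℕ) : ℝ) * (η * Real.log c) := by ring
        _ = ((s L + i : ℕ) : ℝ) * (ε / 2 * Real.log b) := by rw [hηc]
        _ ≤ (s L + n L) * (ε / 2 * Real.log b) := by gcongr
        _ = _ := by ring
    -- the length of the piece
    have h5 : ((J L - t L : ℕ) : ℝ) = (J L : ℝ) - t L := by rw [Nat.cast_sub (htJ L)]
    have h6 : (t L : ℝ) ≤ (Nat.sqrt (n L) : ℝ) := by exact_mod_cast min_le_left _ _
    have h7 : ε / 2 * (s L + n L) + K1 ≤ (J L : ℝ) - t L := by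
      have h8 := hJ L
      have h9 : (0 : ℝ) ≤ s L := Nat.cast_nonneg _
      nlinarith
    have h8 : Real.log (c0 * n0 / k0) + η * Real.log D ≤ ((J L - t L : ℕ) : ℝ) * Real.log b := by
      rw [h5]
      have h10 := mul_le_mul_of_nonneg_right h7 hlb.le
      have e5 : (ε / 2 * (s L + n L) + K1) * Real.log b =
          ε / 2 * (s L + n L) * Real.log b + Real.log (c0 * n0 / k0) := by
        rw [hK1]; field_simp
      rw [e5] at h10
      linarith
    have h9 : c0 * n0 / k0 * D ^ η ≤ (b : ℝ) ^ (J L - t L) := by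
      have e8 : Real.log ((b : ℝ) ^ (J L - t L)) = ((J L - t L : ℕ) : ℝ) * Real.log b :=
        Real.log_pow _ _
      rw [← Real.log_le_log_iff (by positivity) (by positivity), Real.log_mul (by positivity)
        hDl.ne', Real.log_rpow hD0, e8]
      exact h8
    have hdd0 : 0 ≤ dd := dist_nonneg
    have h10 : c0 * n0 / k0 * D ^ η * dd ≤ (b : ℝ) ^ (J L - t L) * dd :=
      mul_le_mul_of_nonneg_right h9 hdd0
    have h11 : c0 ≤ c0 * n0 / k0 * D ^ η * dd := by
      have e6 : c0 * n0 / k0 * D ^ η * dd = c0 / k0 * (D ^ η * (n0 * dd)) := by ring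
      rw [e6]
      have := mul_le_mul_of_nonneg_left h3 (by positivity : 0 ≤ c0 / k0)
      have e7 : c0 / k0 * k0 = c0 := by field_simp
      linarith
    exact h11.trans h10
  obtain ⟨L, hL⟩ := core_seq hb hc h hU hUne hδ y s n J t hn0 hnt htt htJ hfar
  exact absurd hL (not_le.2 (hcard L))

/-- every word of length `k` occurs in the digits of `m` at the places from `A` to `B - 1` -/
def AllWords (b k m : ℕ) (A B : ℝ) : Prop :=
  ∀ W : ℕ, W < b ^ k → ∃ ν : ℕ, A ≤ ν ∧ (ν : ℝ) + k ≤ B ∧ m / b ^ ν % b ^ k = W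

lemma AllWords.mono {b k m : ℕ} {A B A' B' : ℝ} (h : AllWords b k m A B) (hA : A' ≤ A) (hB : B ≤ B') :
    AllWords b k m A' B' := fun W hW => by
  obtain ⟨j, h1, h2, h3⟩ := h W hW
  exact ⟨j, hA.trans h1, h2.trans hB, h3⟩

open Classical in
theorem pow_block {b c : ℕ} (hb : 2 ≤ b) (hc : 2 ≤ c) (h : MulIndep b c) (hbc : b.Coprime c)
    {δ ε : ℝ} (hδ : 0 < δ) (hε : 0 < ε) (k : ℕ) :
    ∃ M0 : ℕ, ∀ s K J M : ℕ, M0 ≤ M → (K : ℝ) ≤ s * (Real.log c / Real.log b) → J + k ≤ K →
      ε * (s + M) ≤ J →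
        (((Finset.range M).filter (fun i : ℕ => ¬ AllWords b k (c ^ (s + i))
          ((K : ℝ) - J - k) K)).card : ℝ) ≤ δ * M := by
  have hbk : 0 < b ^ k := by positivity
  have hbkR : (0 : ℝ) < (b ^ k : ℕ) := by exact_mod_cast hbk
  have hδ' : 0 < δ / (b ^ k : ℕ) := by positivity
  have hb0 : (0 : ℝ) < b := by exact_mod_cast (by omega : 0 < b)
  choose M0 hM0 using fun W : ℕ => pow_scale hb hc h hbc (isOpen_arcW (b ^ k) W)
    (arcW_nonempty hbk W) hδ' hε
  refine ⟨∑ W ∈ Finset.range (b ^ k), M0 W, fun s K J M hM hK hJK hJ => ?_⟩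
  have hMW : ∀ W ∈ Finset.range (b ^ k), M0 W ≤ M := fun W hW =>
    (Finset.single_le_sum (fun _ _ => Nat.zero_le _) hW).trans hM
  set A : ℕ → Finset ℕ := fun W => (Finset.range M).filter (fun i => ∀ j ≤ J,
      b ^ j • c ^ (s + i) • ((1 / (b : ℝ) ^ K : ℝ) : Circ) ∉ arcW (b ^ k) W) with hA
  have hsub : (Finset.range M).filter (fun i : ℕ => ¬ AllWords b k (c ^ (s + i))
          ((K : ℝ) - J - k) K) ⊆
      (Finset.range (b ^ k)).biUnion A := by
    intro i hi
    rw [Finset.mem_filter] at hi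
    obtain ⟨hiM, hi⟩ := hi
    unfold AllWords at hi
    push Not at hi
    obtain ⟨W, hW, hno⟩ := hi
    rw [Finset.mem_biUnion]
    refine ⟨W, Finset.mem_range.2 hW, Finset.mem_filter.2 ⟨hiM, fun j hj hmem => ?_⟩⟩
    have hjk : j + k ≤ K := by omega
    refine hno (K - (j + k)) ?_ ?_ ?_
    · rw [Nat.cast_sub hjk]
      have : (j : ℝ) ≤ J := by exact_mod_cast hj
      push_cast
      linarith
    · rw [Nat.cast_sub hjk]
      have : (0 : ℝ) ≤ j := Nat.cast_nonneg _
      push_cast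
      linarith
    set ν : ℕ := K - (j + k) with hν
    have hKν : K = ν + (j + k) := by omega
    have e1 : b ^ j • c ^ (s + i) • ((1 / (b : ℝ) ^ K : ℝ) : Circ) =
        (((c : ℝ) ^ (s + i) / (b : ℝ) ^ (ν + k) : ℝ) : Circ) := by
      simp only [smul_smul]
      rw [← AddCircle.coe_nsmul, nsmul_eq_mul]
      congr 1
      rw [hKν]
      push_cast
      have hp1 : (b : ℝ) ^ ν ≠ 0 := by positivity
      have hp2 : (b : ℝ) ^ j ≠ 0 := by positivity
      have hp3 : (b : ℝ) ^ k ≠ 0 := by positivity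
      rw [pow_add (b : ℝ) ν (j + k), pow_add (b : ℝ) j k, pow_add (b : ℝ) ν k]
      field_simp
    rw [e1] at hmem
    have h2 := floor_of_mem_arcW hbk hW hmem
    have e2 : ((b ^ k : ℕ) : ℝ) * ((c : ℝ) ^ (s + i) / (b : ℝ) ^ (ν + k)) =
        ((c ^ (s + i) : ℕ) : ℝ) / ((b ^ ν : ℕ) : ℝ) := by
      push_cast
      have hp1 : (b : ℝ) ^ ν ≠ 0 := by positivity
      have hp3 : (b : ℝ) ^ k ≠ 0 := by positivity
      rw [pow_add (b : ℝ) ν k]
      field_simp
    have e3 : ⌊((c ^ (s + i) : ℕ) : ℝ) / ((b ^ ν : ℕ) : ℝ)⌋ = ((c ^ (s + i) / b ^ ν : ℕ) : ℤ) := by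
      rw [← Nat.floor_div_eq_div (K := ℝ), Int.natCast_floor_eq_floor (by positivity)]
    rw [e2, e3] at h2
    exact_mod_cast h2
  have h1 : (((Finset.range (b ^ k)).biUnion A).card : ℝ) ≤
      ∑ W ∈ Finset.range (b ^ k), (δ / (b ^ k : ℕ) * M) := by
    refine le_trans (Nat.cast_le.2 Finset.card_biUnion_le) ?_
    rw [Nat.cast_sum]
    exact Finset.sum_le_sum fun W hW => hM0 W s K J M (hMW W hW) hK (by omega) hJ
  refine le_trans (by exact_mod_cast Finset.card_le_card hsub) (h1.trans (le_of_eq ?_))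
  rw [Finset.sum_const, Finset.card_range, nsmul_eq_mul]
  field_simp

open Classical in
/-- every window of length `ε n` -/
theorem pow_unif {b c : ℕ} (hb : 2 ≤ b) (hc : 2 ≤ c) (h : MulIndep b c) (hbc : b.Coprime c)
    {δ ε : ℝ} (hδ : 0 < δ) (hε : 0 < ε) (k : ℕ) :
    ∃ M0 : ℕ, ∀ s M : ℕ, M0 ≤ M →
        (((Finset.range M).filter (fun i : ℕ => ¬ ∀ N : ℕ,
          (N : ℝ) + ε * (s + i) ≤ (s + i) * (Real.log c / Real.log b) →
            AllWords b k (c ^ (s + i)) N (N + ε * (s + i)))).card : ℝ) ≤ δ * M := by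
  have hbR : (1 : ℝ) < b := by exact_mod_cast (by omega : 1 < b)
  have hcR : (1 : ℝ) < c := by exact_mod_cast (by omega : 1 < c)
  set ell : ℝ := Real.log c / Real.log b with hell
  have hell0 : 0 < ell := div_pos (Real.log_pos hcR) (Real.log_pos hbR)
  set η : ℝ := ε / 4 with hη
  have hη0 : 0 < η := by positivity
  set J0 : ℕ := ⌈ell / η⌉₊ + 1 with hJ0
  have hJ0R : (0 : ℝ) < J0 + 1 := by positivity
  obtain ⟨M1', hM1'⟩ := pow_block hb hc h hbc (δ := δ / 4 / (J0 + 1)) (by positivity)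
    (ε := η / 2) (by positivity) k
  set M1 : ℕ := M1' + 1 with hM1
  have hM1pos : (0 : ℝ) < M1 := by rw [hM1]; positivity
  have hblk := fun s K J => hM1' s K J M1 (by omega)
  set I0 : ℕ := ⌈(M1 * ell + 2 + k) / (ε / 2)⌉₊ + M1 with hI0
  have hI0' : M1 * ell + 2 + k ≤ ε / 2 * I0 := by
    have h1 := Nat.le_ceil ((M1 * ell + 2 + k) / (ε / 2))
    rw [div_le_iff₀ (by positivity)] at h1
    have h2 : ((⌈(M1 * ell + 2 + k) / (ε / 2)⌉₊ : ℕ) : ℝ) ≤ I0 := by
      rw [hI0]; push_cast; linarith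
    nlinarith
  obtain ⟨M0, hM0⟩ := exists_nat_ge ((I0 + M1 + δ / 4 * M1) / (3 * δ / 4))
  refine ⟨M0, fun s M hM => ?_⟩
  set st : ℕ → ℕ := fun s' => ⌊η * s'⌋₊ + 1 with hst
  set Bu : ℕ → ℕ → Finset ℕ := fun a u =>
    (Finset.range M1).filter (fun r : ℕ =>
      (((u * st (s + a * M1) : ℕ) : ℝ) ≤ ((s + a * M1 : ℕ) : ℝ) * ell ∧
        st (s + a * M1) + k ≤ u * st (s + a * M1) ∧
        η / 2 * (((s + a * M1 : ℕ) : ℝ) + M1) ≤ (st (s + a * M1) : ℝ)) ∧
      ¬ AllWords b k (c ^ (s + a * M1 + r))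
      (((u * st (s + a * M1) : ℕ) : ℝ) - (st (s + a * M1) : ℕ) - k)
      ((u * st (s + a * M1) : ℕ) : ℝ)) with hBu
  have hBuc : ∀ a u, ((Bu a u).card : ℝ) ≤ δ / 4 / (J0 + 1) * M1 := by
    intro a u
    by_cases hcond : (((u * st (s + a * M1) : ℕ) : ℝ) ≤ ((s + a * M1 : ℕ) : ℝ) * ell ∧
        st (s + a * M1) + k ≤ u * st (s + a * M1) ∧
        η / 2 * (((s + a * M1 : ℕ) : ℝ) + M1) ≤ (st (s + a * M1) : ℝ))
    · refine le_trans (Nat.cast_le.2 (Finset.card_le_card ?_))
        (hblk (s + a * M1) (u * st (s + a * M1)) (st (s + a * M1)) hcond.1 hcond.2.1 hcond.2.2)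
      intro r hr
      rw [hBu, Finset.mem_filter] at hr
      rw [Finset.mem_filter]
      exact ⟨hr.1, hr.2.2⟩
    · have : Bu a u = ∅ := by
        rw [hBu, Finset.filter_eq_empty_iff]
        intro r _ hr
        exact hcond hr.1
      rw [this, Finset.card_empty, Nat.cast_zero]
      positivity
  set Bl : ℕ → Finset ℕ := fun a => (Finset.range (J0 + 1)).biUnion (Bu a) with hBl
  have hBlc : ∀ a, ((Bl a).card : ℝ) ≤ δ / 4 * M1 := by
    intro a
    refine le_trans (Nat.cast_le.2 Finset.card_biUnion_le) ?_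
    rw [Nat.cast_sum]
    refine (Finset.sum_le_sum (g := fun _ => δ / 4 / (J0 + 1) * (M1 : ℝ)) fun u _ => hBuc a u).trans ?_
    rw [Finset.sum_const, Finset.card_range, nsmul_eq_mul]
    push_cast
    field_simp
    exact le_rfl
  have hsub : (Finset.range M).filter (fun i : ℕ => ¬ ∀ N : ℕ,
          (N : ℝ) + ε * (s + i) ≤ (s + i) * ell →
            AllWords b k (c ^ (s + i)) N (N + ε * (s + i))) ⊆
      Finset.range (I0 + M1) ∪
        (Finset.range (M / M1 + 1)).biUnion (fun a => (Bl a).image (fun r => a * M1 + r)) := by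
    intro i hi
    rw [Finset.mem_filter, Finset.mem_range] at hi
    obtain ⟨hiM, hi⟩ := hi
    rw [Finset.mem_union]
    by_cases hsmall : i < I0 + M1
    · left; exact Finset.mem_range.2 hsmall
    right
    rw [Finset.mem_biUnion]
    have hdiv : i / M1 * M1 + i % M1 = i := Nat.div_add_mod' i M1
    have hmod : i % M1 < M1 := Nat.mod_lt _ (by omega)
    refine ⟨i / M1, ?_, ?_⟩
    · rw [Finset.mem_range]
      have := Nat.div_le_div_right (c := M1) hiM.le
      omega
    rw [Finset.mem_image]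
    refine ⟨i % M1, ?_, hdiv⟩
    by_contra hnot
    refine hi fun N hN => ?_
    set s' : ℕ := s + i / M1 * M1 with hs'
    have hs'i : s' + i % M1 = s + i := by omega
    have hs'I : I0 ≤ s' := by omega
    have hs'1 : M1 ≤ s' := by
      have : M1 ≤ I0 := by rw [hI0]; omega
      omega
    have hs'R : (I0 : ℝ) ≤ s' := by exact_mod_cast hs'I
    have hs'1R : (M1 : ℝ) ≤ s' := by exact_mod_cast hs'1
    have hs'0 : (0 : ℝ) ≤ s' := Nat.cast_nonneg _
    have hmod0 : (0 : ℝ) ≤ ((i % M1 : ℕ) : ℝ) := Nat.cast_nonneg _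
    have hmodR : ((i % M1 : ℕ) : ℝ) ≤ M1 := by exact_mod_cast hmod.le
    have hsi : ((s : ℝ) + i) = s' + ((i % M1 : ℕ) : ℝ) := by
      have : ((s' + i % M1 : ℕ) : ℝ) = ((s + i : ℕ) : ℝ) := by rw [hs'i]
      push_cast at this
      linarith
    rw [hsi] at hN ⊢
    -- the step
    have hst1 : (st s' : ℝ) ≤ η * s' + 1 := by
      simp only [hst]; push_cast
      have := Nat.floor_le (by positivity : 0 ≤ η * (s' : ℝ))
      linarith
    have hst2 : η * s' < st s' := by
      simp only [hst]; push_cast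
      exact Nat.lt_floor_add_one _
    have hst0 : 0 < st s' := by simp only [hst]; omega
    have hst0R : (0 : ℝ) < st s' := by exact_mod_cast hst0
    have hNR : (0 : ℝ) ≤ N := Nat.cast_nonneg _
    have hbig : M1 * ell + 2 + k ≤ ε / 2 * s' := hI0'.trans (by gcongr)
    -- the end of the window
    set X : ℝ := N + ε * (s' + ((i % M1 : ℕ) : ℝ)) - M1 * ell with hX
    have hk0 : (0 : ℝ) ≤ k := Nat.cast_nonneg _
    have hX0 : 0 ≤ X := by
      rw [hX]
      have : 0 ≤ ε * ((i % M1 : ℕ) : ℝ) := by positivity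
      nlinarith
    set u : ℕ := ⌊X / st s'⌋₊ with hu
    have hu1 : ((u * st s' : ℕ) : ℝ) ≤ X := by
      have := Nat.floor_le (by positivity : 0 ≤ X / st s')
      rw [le_div_iff₀ hst0R] at this
      push_cast; exact this
    have hu2 : X < ((u * st s' : ℕ) : ℝ) + st s' := by
      have := Nat.lt_floor_add_one (X / st s')
      rw [div_lt_iff₀ hst0R] at this
      push_cast
      calc X < (↑⌊X / ↑(st s')⌋₊ + 1) * ↑(st s') := this
        _ = _ := by rw [hu]; ring
    have hXell : X ≤ s' * ell := by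
      rw [hX]
      have : ((i % M1 : ℕ) : ℝ) * ell ≤ M1 * ell := by gcongr
      nlinarith
    have hKN : (N : ℝ) ≤ ((u * st s' : ℕ) : ℝ) - st s' - k := by
      have h1 : X - 2 * st s' - k ≤ ((u * st s' : ℕ) : ℝ) - st s' - k := by linarith
      refine le_trans ?_ h1
      rw [hX]
      have h2 : 0 ≤ ε * ((i % M1 : ℕ) : ℝ) := by positivity
      have h3 : 2 * (st s' : ℝ) ≤ ε / 2 * s' + 2 := by
        calc 2 * (st s' : ℝ) ≤ 2 * (η * s' + 1) := by linarith
          _ = ε / 2 * s' + 2 := by rw [hη]; ring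
      nlinarith
    have hcond : (((u * st s' : ℕ) : ℝ) ≤ ((s' : ℕ) : ℝ) * ell ∧
        st s' + k ≤ u * st s' ∧
        η / 2 * (((s' : ℕ) : ℝ) + M1) ≤ (st s' : ℝ)) := by
      refine ⟨hu1.trans hXell, ?_, ?_⟩
      · have h1 : (st s' : ℝ) + k ≤ ((u * st s' : ℕ) : ℝ) := by linarith
        exact_mod_cast h1
      · nlinarith
    have huJ : u < J0 + 1 := by
      have h1 : (u : ℝ) ≤ ell / η := by
        rw [le_div_iff₀ hη0]
        have h2 : (u : ℝ) * (η * s') ≤ s' * ell := by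
          have h3 : (u : ℝ) * (η * s') ≤ u * st s' := by
            have : (0 : ℝ) ≤ u := Nat.cast_nonneg _
            nlinarith
          have h4 := hcond.1
          push_cast at h4
          linarith
        have h5 : (0 : ℝ) < s' := lt_of_lt_of_le hM1pos hs'1R
        have h6 : (u * η) * s' ≤ ell * s' := by linarith
        exact le_of_mul_le_mul_right h6 h5
      have h2 : (u : ℝ) ≤ (⌈ell / η⌉₊ : ℕ) := h1.trans (Nat.le_ceil _)
      have h3 : u ≤ ⌈ell / η⌉₊ := by exact_mod_cast h2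
      rw [hJ0]; omega
    have hwb : AllWords b k (c ^ (s' + i % M1)) (((u * st s' : ℕ) : ℝ) - (st s' : ℕ) - k)
        ((u * st s' : ℕ) : ℝ) := by
      by_contra hcon
      refine hnot ?_
      rw [hBl]
      refine Finset.mem_biUnion.2 ⟨u, Finset.mem_range.2 huJ, ?_⟩
      rw [hBu]
      exact Finset.mem_filter.2 ⟨Finset.mem_range.2 hmod, hcond, hcon⟩
    rw [hs'i] at hwb
    refine hwb.mono hKN ?_
    refine hu1.trans ?_
    rw [hX]
    have : 0 ≤ (M1 : ℝ) * ell := by positivity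
    linarith
  have h1 : ((Finset.range (I0 + M1) ∪
        (Finset.range (M / M1 + 1)).biUnion (fun a => (Bl a).image (fun r => a * M1 + r))).card : ℝ)
      ≤ (I0 + M1) + (M / M1 + 1 : ℕ) * (δ / 4 * M1) := by
    refine le_trans (Nat.cast_le.2 (Finset.card_union_le _ _)) ?_
    rw [Nat.cast_add]
    refine add_le_add (by rw [Finset.card_range]; push_cast; rfl) ?_
    refine le_trans (Nat.cast_le.2 Finset.card_biUnion_le) ?_
    rw [Nat.cast_sum]
    refine (Finset.sum_le_sum (g := fun _ => δ / 4 * (M1 : ℝ)) fun g _ => ?_).trans ?_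
    · exact le_trans (Nat.cast_le.2 Finset.card_image_le) (hBlc g)
    · rw [Finset.sum_const, Finset.card_range, nsmul_eq_mul]
  refine le_trans (by exact_mod_cast Finset.card_le_card hsub) (h1.trans ?_)
  have h2 : ((M / M1 : ℕ) : ℝ) * M1 ≤ M := by exact_mod_cast Nat.div_mul_le_self M M1
  have h3 : (M0 : ℝ) ≤ M := by exact_mod_cast hM
  have h4 := hM0.trans h3
  rw [div_le_iff₀ (by positivity)] at h4
  have h5 : ((M / M1 + 1 : ℕ) : ℝ) * (δ / 4 * M1) = δ / 4 * (((M / M1 : ℕ) : ℝ) * M1) + δ / 4 * M1 := by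
    push_cast; ring
  rw [h5]
  have h6 := mul_le_mul_of_nonneg_left h2 (by positivity : 0 ≤ δ / 4)
  linarith

end Pool.Agent.TH419.FS
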