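import Mathlib
import Pool.Agent.TH419.FS.Rid

set_option autoImplicit false

namespace Pool.Agent.TH419.FS

/-- algebraic numbers are not well approximated by the numbers `m / (n b ^ a c ^ i)` -/
theorem alg_units (b c : ℕ) (hb : 2 ≤ b) (hc : 2 ≤ c) (ξ : ℝ) (halg : IsAlgebraic ℚ ξ)
    (hirr : Irrational ξ) (η : ℝ) (hη : 0 < η) :
    ∃ κ : ℕ → ℝ, (∀ n, 0 < κ n) ∧ ∀ n : ℕ, 1 ≤ n → ∀ (a i : ℕ) (m : ℤ),
      κ n ≤ ((b : ℝ) ^ a * (c : ℝ) ^ i) ^ η * |n * ((b : ℝ) ^ a * (c : ℝ) ^ i) * ξ - m| := by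
  have key : ∀ n : ℕ, ∃ κ : ℝ, 0 < κ ∧ (1 ≤ n → ∀ (a i : ℕ) (m : ℤ),
      κ ≤ ((b : ℝ) ^ a * (c : ℝ) ^ i) ^ η * |n * ((b : ℝ) ^ a * (c : ℝ) ^ i) * ξ - m|) := by
    intro n
    rcases Nat.eq_zero_or_pos n with hn | hn
    · exact ⟨1, one_pos, fun h => by omega⟩
    · have h1 : IsAlgebraic ℚ ((n : ℝ) * ξ) := (isAlgebraic_natCast n).mul halg
      obtain ⟨κ, hκ, h⟩ := ridout_units b c hb hc ((n : ℝ) * ξ) h1 (hirr.natCast_mul (by omega)) η hη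
      refine ⟨κ, hκ, fun _ a i m => (h a i m).trans (le_of_eq ?_)⟩
      congr 2
      ring
  choose κ hκ h using key
  exact ⟨κ, hκ, fun n hn => h n hn⟩

end Pool.Agent.TH419.FS
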