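import Mathlib
import Pool.Agent.H326R2.Pi.Top
import Pool.Agent.W47.LC.Ln2
import Pool.Agent.W226.MP.EPlace

set_option autoImplicit false

namespace Pool.Agent.TH419.FS

/-- small denominators -/
theorem small_den (x : ℝ) (hx : Irrational x) (n : ℕ) :
    ∃ c : ℝ, 0 < c ∧ ∀ q : ℕ, 1 ≤ q → q < n → ∀ p : ℤ, c ≤ |q * x - p| := by
  induction n with
  | zero => exact ⟨1, one_pos, fun q _ h => absurd h (Nat.not_lt_zero q)⟩
  | succ n ih =>
    obtain ⟨c, hc, h⟩ := ih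
    rcases Nat.eq_zero_or_pos n with hn | hn
    · exact ⟨1, one_pos, fun q h1 h2 => by omega⟩
    · have hirr : Irrational ((n : ℝ) * x) := hx.natCast_mul (by omega)
      have hpos : 0 < |(n : ℝ) * x - round ((n : ℝ) * x)| := by
        rw [abs_pos, sub_ne_zero]
        exact hirr.ne_int _
      refine ⟨min c |(n : ℝ) * x - round ((n : ℝ) * x)|, lt_min hc hpos, fun q h1 h2 p => ?_⟩
      rcases Nat.lt_succ_iff_lt_or_eq.1 h2 with h3 | h3
      · exact (min_le_left _ _).trans (h q h1 h3 p)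
      · rw [h3]
        exact (min_le_right _ _).trans (round_le _ _)

/-- the irrationality measure of `π` for all denominators -/
theorem meas_pi : ∃ c : ℝ, 0 < c ∧ ∀ q : ℕ, 1 ≤ q → ∀ p : ℤ,
    c ≤ (q : ℝ) ^ (5.05 : ℝ) * |q * Real.pi - p| := by
  obtain ⟨q0, hq0⟩ := Pool.Agent.H326R2.Pi.main
  obtain ⟨c, hc, hsm⟩ := small_den Real.pi irrational_pi q0
  refine ⟨min c 1, lt_min hc one_pos, fun q hq p => ?_⟩
  have hqR : (1 : ℝ) ≤ q := by exact_mod_cast hq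
  have hq0R : (0 : ℝ) < q := by linarith
  rcases lt_or_ge q q0 with h | h
  · refine (min_le_left _ _).trans ((hsm q hq h p).trans ?_)
    have h1 : (1 : ℝ) ≤ (q : ℝ) ^ (5.05 : ℝ) := Real.one_le_rpow hqR (by norm_num)
    nlinarith [abs_nonneg ((q : ℝ) * Real.pi - p)]
  · refine (min_le_right _ _).trans ?_
    have h1 := hq0 q h p
    have e1 : |Real.pi - p / q| = |q * Real.pi - p| / q := by
      rw [← abs_of_pos hq0R, ← abs_div, abs_of_pos hq0R]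
      congr 1
      field_simp
    rw [e1, le_div_iff₀ hq0R] at h1
    have h2 : (1 : ℝ) = (q : ℝ) ^ (5.05 : ℝ) * ((q : ℝ) ^ (-(6.05 : ℝ)) * q) := by
      have e2 : (q : ℝ) ^ (-(6.05 : ℝ)) * q = (q : ℝ) ^ (-(5.05 : ℝ)) := by
        rw [show (-(5.05 : ℝ)) = -(6.05 : ℝ) + 1 by norm_num, Real.rpow_add hq0R, Real.rpow_one]
      rw [e2, ← Real.rpow_add hq0R]
      norm_num
    rw [h2]
    exact mul_le_mul_of_nonneg_left h1 (by positivity)

theorem meas_sqrt : ∃ c : ℝ, 0 < c ∧ ∀ q : ℕ, 1 ≤ q → ∀ p : ℤ,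
    c ≤ (q : ℝ) ^ (1 : ℝ) * |q * √2 - p| :=
  Pool.Agent.W226.MP.liouville2 (√2) irrational_sqrt_two 1 0 (-2) one_ne_zero (by
    have := Real.sq_sqrt (show (0 : ℝ) ≤ 2 by norm_num)
    push_cast
    linarith)

theorem meas_golden : ∃ c : ℝ, 0 < c ∧ ∀ q : ℕ, 1 ≤ q → ∀ p : ℤ,
    c ≤ (q : ℝ) ^ (1 : ℝ) * |q * Real.goldenRatio - p| :=
  Pool.Agent.W226.MP.liouville2 Real.goldenRatio Real.goldenRatio_irrational 1 (-1) (-1)
    one_ne_zero (by
      have := Real.goldenRatio_sq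
      push_cast
      linarith)

theorem meas_exp {η : ℝ} (hη : 0 < η) : ∃ c : ℝ, 0 < c ∧ ∀ q : ℕ, 1 ≤ q → ∀ p : ℤ,
    c ≤ (q : ℝ) ^ (1 + η) * |q * Real.exp 1 - p| := by
  refine ⟨1 / 1000 / (1 + 1 / η), by positivity, fun q hq p => ?_⟩
  have hqR : (1 : ℝ) ≤ q := by exact_mod_cast hq
  have hq0 : (0 : ℝ) < q := by linarith
  have h1 := Pool.Agent.W47.LC.eBound q hq p
  rw [pow_one] at h1
  have h2 : Real.log q ≤ (q : ℝ) ^ η / η := Real.log_le_rpow_div hq0.le hη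
  have h3 : (1 : ℝ) ≤ (q : ℝ) ^ η := Real.one_le_rpow hqR hη.le
  have h4 : 1 + Real.log q ≤ (1 + 1 / η) * (q : ℝ) ^ η := by
    have : (1 + 1 / η) * (q : ℝ) ^ η = (q : ℝ) ^ η + (q : ℝ) ^ η / η := by ring
    rw [this]; linarith
  rw [div_le_iff₀ (by positivity), Real.rpow_add hq0, Real.rpow_one]
  have ha : 0 ≤ |(q : ℝ) * Real.exp 1 - p| := abs_nonneg _
  calc (1 / 1000 : ℝ) ≤ q * (1 + Real.log q) * |q * Real.exp 1 - p| := h1
    _ ≤ q * ((1 + 1 / η) * (q : ℝ) ^ η) * |q * Real.exp 1 - p| := by gcongr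
    _ = q * (q : ℝ) ^ η * |q * Real.exp 1 - p| * (1 + 1 / η) := by ring

end Pool.Agent.TH419.FS
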