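import Mathlib
import Pool.Agent.TH419.FS.Digits

set_option autoImplicit false

open MeasureTheory Filter Topology Set TopologicalSpace

namespace Pool.Agent.TH419.FS

open Pool.Agent.H705R2 Pool.Agent.W765.Sta Pool.Agent.W765.KB Pool.Agent.W765.Det

/-- every word of length `k` occurs in `y` at a place between `A` and `B` -/
def WB (b k : ℕ) (y A B : ℝ) : Prop :=
  ∀ W : ℕ, W < b ^ k → ∃ j : ℕ, A ≤ j ∧ (j : ℝ) ≤ B ∧
    ⌊(b : ℝ) ^ (j + k) * y⌋ % ((b : ℤ) ^ k) = (W : ℤ)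

lemma WB.mono {b k : ℕ} {y A B A' B' : ℝ} (h : WB b k y A B) (hA : A' ≤ A) (hB : B ≤ B') :
    WB b k y A' B' := fun W hW => by
  obtain ⟨j, h1, h2, h3⟩ := h W hW
  exact ⟨j, hA.trans h1, h2.trans hB, h3⟩

open Classical in
theorem block' {b c : ℕ} (hb : 2 ≤ b) (hc : 2 ≤ c) (h : MulIndep b c) {δ : ℝ} (hδ : 0 < δ)
    {lam C : ℝ} {κ : ℕ → ℝ} (hlam : 0 ≤ lam) (hκ : ∀ n, 0 < κ n) (hC : lam < C) (k : ℕ) :
    ∃ M0 : ℕ, ∀ x : ℝ, (∀ n : ℕ, 1 ≤ n → ∀ (a i : ℕ) (m : ℤ),
        κ n ≤ ((b : ℝ) ^ a * (c : ℝ) ^ i) ^ lam * |n * ((b : ℝ) ^ a * (c : ℝ) ^ i) * x - m|) →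
      ∀ s N M : ℕ, M0 ≤ M →
        (((Finset.range M).filter (fun i : ℕ => ¬ WB b k ((c : ℝ) ^ (s + i) * x) N
          (N + C * (N + (s + M) * (Real.log c / Real.log b))))).card : ℝ) ≤ δ * M := by
  obtain ⟨M0, hM0⟩ := block hb hc h hδ hlam hκ hC k
  refine ⟨M0, fun x hx s N M hM => le_trans (Nat.cast_le.2 (Finset.card_le_card ?_))
    (hM0 x hx s N M hM)⟩
  intro i hi
  rw [Finset.mem_filter] at hi ⊢
  refine ⟨hi.1, fun hall => hi.2 fun W hW => ?_⟩
  obtain ⟨j, h1, h2, h3⟩ := hall W hW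
  exact ⟨j, by exact_mod_cast h1, h2, h3⟩

open Classical in
/-- uniformity in the place `N ≤ R i` -/
theorem unif {b c : ℕ} (hb : 2 ≤ b) (hc : 2 ≤ c) (h : MulIndep b c) {δ : ℝ} (hδ : 0 < δ)
    {lam C : ℝ} {κ : ℕ → ℝ} (hlam : 0 ≤ lam) (hκ : ∀ n, 0 < κ n) (hC : lam < C) (k R : ℕ) :
    ∃ M0 : ℕ, ∀ x : ℝ, (∀ n : ℕ, 1 ≤ n → ∀ (a i : ℕ) (m : ℤ),
        κ n ≤ ((b : ℝ) ^ a * (c : ℝ) ^ i) ^ lam * |n * ((b : ℝ) ^ a * (c : ℝ) ^ i) * x - m|) →
      ∀ s M : ℕ, M0 ≤ M →
        (((Finset.range M).filter (fun i : ℕ => ¬ ∀ N : ℕ, N ≤ R * (s + i) →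
          WB b k ((c : ℝ) ^ (s + i) * x) N
          (N + C * (N + (s + i) * (Real.log c / Real.log b))))).card : ℝ) ≤ δ * M := by
  have hpR : (1 : ℝ) < b := by exact_mod_cast (by omega : 1 < b)
  have hqR : (1 : ℝ) < c := by exact_mod_cast (by omega : 1 < c)
  set ell : ℝ := Real.log c / Real.log b with hell
  have hell0 : 0 < ell := div_pos (Real.log_pos hqR) (Real.log_pos hpR)
  set C' : ℝ := (lam + C) / 2 with hC'
  have hC'1 : lam < C' := by rw [hC']; linarith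
  have hC'2 : C' < C := by rw [hC']; linarith
  have hC'0 : 0 < C' := lt_of_le_of_lt hlam hC'1
  have hC0 : 0 < C := hC'0.trans hC'2
  -- the grid
  set g : ℝ := (C - C') * ell with hg
  have hg0 : 0 < g := mul_pos (by linarith) hell0
  set η : ℝ := g / (2 * (1 + C')) with hη
  have hη0 : 0 < η := by positivity
  -- number of grid points
  set J0 : ℕ := ⌈(2 * (R : ℝ)) / η⌉₊ + 1 with hJ0
  have hJ0R : (0 : ℝ) < J0 + 1 := by positivity
  obtain ⟨M1', hM1'⟩ := block' hb hc h (δ := δ / 4 / (J0 + 1)) (by positivity) hlam hκ hC'1 k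
  set M1 : ℕ := M1' + 1 with hM1
  have hM1pos : (0 : ℝ) < M1 := by rw [hM1]; positivity
  have hblk := fun x hx s N => hM1' x hx s N M1 (by omega)
  -- large starting points
  set I0 : ℕ := ⌈(2 * (1 + C') + 2 * C' * M1 * ell) / g⌉₊ + M1 with hI0
  have hI0' : 2 * (1 + C') + 2 * C' * M1 * ell ≤ g * I0 := by
    have h1 := Nat.le_ceil ((2 * (1 + C') + 2 * C' * M1 * ell) / g)
    rw [div_le_iff₀ hg0] at h1
    have h2 : ((⌈(2 * (1 + C') + 2 * C' * M1 * ell) / g⌉₊ : ℕ) : ℝ) ≤ I0 := by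
      rw [hI0]; push_cast; linarith
    nlinarith
  obtain ⟨M0, hM0⟩ := exists_nat_ge ((I0 + M1 + δ / 4 * M1) / (3 * δ / 4))
  refine ⟨M0, fun x hx s M hM => ?_⟩
  -- the step of the grid in the block which starts at `s'`
  set st : ℕ → ℕ := fun s' => ⌊η * s'⌋₊ + 1 with hst
  set Bl : ℕ → Finset ℕ := fun a => (Finset.range (J0 + 1)).biUnion (fun u =>
    (Finset.range M1).filter (fun r : ℕ => ¬ WB b k ((c : ℝ) ^ (s + a * M1 + r) * x)
      ((u * st (s + a * M1) : ℕ) : ℝ)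
      (((u * st (s + a * M1) : ℕ) : ℝ) + C' * (((u * st (s + a * M1) : ℕ) : ℝ) +
        (((s + a * M1 : ℕ) : ℝ) + M1) * ell)))) with hBl
  have hBlc : ∀ a, ((Bl a).card : ℝ) ≤ δ / 4 * M1 := by
    intro a
    refine le_trans (Nat.cast_le.2 Finset.card_biUnion_le) ?_
    rw [Nat.cast_sum]
    refine (Finset.sum_le_sum (g := fun _ => δ / 4 / (J0 + 1) * (M1 : ℝ)) fun u _ => ?_).trans ?_
    · exact hblk x hx (s + a * M1) (u * st (s + a * M1))
    · rw [Finset.sum_const, Finset.card_range, nsmul_eq_mul]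
      push_cast
      field_simp
      exact le_rfl
  have hsub : (Finset.range M).filter (fun i : ℕ => ¬ ∀ N : ℕ, N ≤ R * (s + i) →
          WB b k ((c : ℝ) ^ (s + i) * x) N (N + C * (N + (s + i) * ell))) ⊆
      Finset.range (I0 + M1) ∪
        (Finset.range (M / M1 + 1)).biUnion (fun a => (Bl a).image (fun r => a * M1 + r)) := by
    intro i hi
    rw [Finset.mem_filter, Finset.mem_range] at hi
    obtain ⟨hiM, hi⟩ := hi
    rw [Finset.mem_union]
    by_cases hsmall : i < I0 + M1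
    · left; exact Finset.mem_range.2 hsmall
    right
    rw [Finset.mem_biUnion]
    have hdiv : i / M1 * M1 + i % M1 = i := Nat.div_add_mod' i M1
    have hmod : i % M1 < M1 := Nat.mod_lt _ (by omega)
    refine ⟨i / M1, ?_, ?_⟩
    · rw [Finset.mem_range]
      have := Nat.div_le_div_right (c := M1) hiM.le
      omega
    rw [Finset.mem_image]
    refine ⟨i % M1, ?_, hdiv⟩
    by_contra hnot
    refine hi fun N hN => ?_
    set s' : ℕ := s + i / M1 * M1 with hs'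
    have hs'i : s' + i % M1 = s + i := by omega
    have hs'I : I0 ≤ s' := by omega
    have hs'1 : M1 ≤ s' := by
      have : M1 ≤ I0 := by rw [hI0]; omega
      omega
    have hs'R : (I0 : ℝ) ≤ s' := by exact_mod_cast hs'I
    have hs'pos : (0 : ℝ) < s' := by exact_mod_cast (by omega : 0 < s')
    have hsi : ((s : ℝ) + i) = s' + ((i % M1 : ℕ) : ℝ) := by
      have : ((s' + i % M1 : ℕ) : ℝ) = ((s + i : ℕ) : ℝ) := by rw [hs'i]
      push_cast at this
      linarith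
    have hmod0 : (0 : ℝ) ≤ ((i % M1 : ℕ) : ℝ) := Nat.cast_nonneg _
    -- the step
    have hst1 : (st s' : ℝ) ≤ η * s' + 1 := by
      simp only [hst]; push_cast
      have := Nat.floor_le (by positivity : 0 ≤ η * (s' : ℝ))
      linarith
    have hst2 : η * s' < st s' := by
      simp only [hst]; push_cast
      exact Nat.lt_floor_add_one _
    have hst0 : 0 < st s' := by simp only [hst]; omega
    -- the grid point
    set u : ℕ := N / st s' + 1 with hu
    have hu1 : N ≤ u * st s' := by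
      have h1 := Nat.div_add_mod' N (st s')
      have h2 := Nat.mod_lt N hst0
      rw [hu, add_mul, one_mul]; omega
    have hu2 : u * st s' ≤ N + st s' := by
      have := Nat.div_mul_le_self N (st s')
      rw [hu, add_mul, one_mul]; omega
    have huJ : u < J0 + 1 := by
      have h1 : N ≤ R * (2 * s') := hN.trans (Nat.mul_le_mul_left R (by omega))
      have h2 : (N : ℝ) ≤ (2 * R) / η * st s' := by
        have h3 : (N : ℝ) ≤ R * (2 * s') := by exact_mod_cast h1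
        rw [div_mul_eq_mul_div, le_div_iff₀ hη0]
        have h4 : (0 : ℝ) ≤ R := Nat.cast_nonneg _
        nlinarith
      have h5 : (N : ℝ) ≤ (⌈(2 * (R : ℝ)) / η⌉₊ : ℕ) * st s' :=
        h2.trans (mul_le_mul_of_nonneg_right (Nat.le_ceil _) (Nat.cast_nonneg _))
      have h6 : N ≤ ⌈(2 * (R : ℝ)) / η⌉₊ * st s' := by exact_mod_cast h5
      have h7 : N / st s' ≤ ⌈(2 * (R : ℝ)) / η⌉₊ := by
        calc N / st s' ≤ (⌈(2 * (R : ℝ)) / η⌉₊ * st s') / st s' := Nat.div_le_div_right h6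
          _ = _ := Nat.mul_div_cancel _ hst0
      rw [hu, hJ0]; omega
    have hwb : WB b k ((c : ℝ) ^ (s' + i % M1) * x) ((u * st s' : ℕ) : ℝ)
        (((u * st s' : ℕ) : ℝ) + C' * (((u * st s' : ℕ) : ℝ) + ((s' : ℝ) + M1) * ell)) := by
      by_contra hcon
      refine hnot ?_
      rw [hBl]
      exact Finset.mem_biUnion.2 ⟨u, Finset.mem_range.2 huJ, Finset.mem_filter.2
        ⟨Finset.mem_range.2 hmod, hcon⟩⟩
    rw [hs'i] at hwb
    refine hwb.mono (by exact_mod_cast hu1) ?_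
    have huR : ((u * st s' : ℕ) : ℝ) ≤ N + st s' := by exact_mod_cast hu2
    have hNR : (0 : ℝ) ≤ N := Nat.cast_nonneg _
    rw [hsi]
    set T : ℝ := ((u * st s' : ℕ) : ℝ) with hT
    -- T ≤ N + η s' + 1
    have hT1 : T ≤ N + (η * s' + 1) := by linarith
    have hT2 : (1 + C') * T ≤ (1 + C') * (N + (η * s' + 1)) :=
      mul_le_mul_of_nonneg_left hT1 (by linarith)
    have hη2 : (1 + C') * (η * s') = g / 2 * s' := by
      rw [hη]; field_simp
    have hI1 : 2 * (1 + C') + 2 * C' * M1 * ell ≤ g * s' :=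
      hI0'.trans (mul_le_mul_of_nonneg_left hs'R hg0.le)
    have hk1 : 0 ≤ C * ((i % M1 : ℕ) : ℝ) * ell := by positivity
    have hk2 : 0 ≤ (C - C') * N := mul_nonneg (by linarith) hNR
    have e1 : T + C' * (T + ((s' : ℝ) + M1) * ell) = (1 + C') * T + C' * s' * ell + C' * M1 * ell := by
      ring
    have e2 : (N : ℝ) + C * (N + (s' + ((i % M1 : ℕ) : ℝ)) * ell) =
        (1 + C') * N + (C - C') * N + C' * s' * ell + (C - C') * ell * s' +
          C * ((i % M1 : ℕ) : ℝ) * ell := by ring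
    have e3 : (1 + C') * (N + (η * s' + 1)) = (1 + C') * N + (1 + C') * (η * s') + (1 + C') := by ring
    rw [e1, e2]
    rw [e3, hη2] at hT2
    have e4 : (C - C') * ell * s' = g * s' := by rw [hg]
    rw [e4]
    linarith
  have h1 : ((Finset.range (I0 + M1) ∪
        (Finset.range (M / M1 + 1)).biUnion (fun a => (Bl a).image (fun r => a * M1 + r))).card : ℝ)
      ≤ (I0 + M1) + (M / M1 + 1 : ℕ) * (δ / 4 * M1) := by
    refine le_trans (Nat.cast_le.2 (Finset.card_union_le _ _)) ?_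
    rw [Nat.cast_add]
    refine add_le_add (by rw [Finset.card_range]; push_cast; rfl) ?_
    refine le_trans (Nat.cast_le.2 Finset.card_biUnion_le) ?_
    rw [Nat.cast_sum]
    refine (Finset.sum_le_sum (g := fun _ => δ / 4 * (M1 : ℝ)) fun g _ => ?_).trans ?_
    · exact le_trans (Nat.cast_le.2 Finset.card_image_le) (hBlc g)
    · rw [Finset.sum_const, Finset.card_range, nsmul_eq_mul]
  refine le_trans (by exact_mod_cast Finset.card_le_card hsub) (h1.trans ?_)
  have h2 : ((M / M1 : ℕ) : ℝ) * M1 ≤ M := by exact_mod_cast Nat.div_mul_le_self M M1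
  have h3 : (M0 : ℝ) ≤ M := by exact_mod_cast hM
  have h4 := hM0.trans h3
  rw [div_le_iff₀ (by positivity)] at h4
  have h5 : ((M / M1 + 1 : ℕ) : ℝ) * (δ / 4 * M1) = δ / 4 * (((M / M1 : ℕ) : ℝ) * M1) + δ / 4 * M1 := by
    push_cast; ring
  rw [h5]
  have h6 := mul_le_mul_of_nonneg_left h2 (by positivity : 0 ≤ δ / 4)
  linarith

end Pool.Agent.TH419.FS
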