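import Mathlib

set_option autoImplicit false

open Filter Topology

namespace Pool.Agent.TH419.FS

/-- the number of elements of `S` below `n` -/
noncomputable def cnt (S : Set ℕ) (n : ℕ) : ℕ := (S ∩ Set.Iio n).ncard

lemma fin_aux (S : Set ℕ) (n : ℕ) : (S ∩ Set.Iio n).Finite := (Set.finite_Iio n).inter_of_right S

lemma cnt_mono {S T : Set ℕ} {n : ℕ} (h : ∀ x < n, x ∈ S → x ∈ T) : cnt S n ≤ cnt T n :=
  Set.ncard_le_ncard (fun x hx => ⟨h x hx.2 hx.1, hx.2⟩) (fin_aux T n)

lemma cnt_union (S T : Set ℕ) (n : ℕ) : cnt (S ∪ T) n ≤ cnt S n + cnt T n := by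
  unfold cnt
  rw [Set.union_inter_distrib_right]
  exact Set.ncard_union_le _ _

lemma cnt_compl (S : Set ℕ) (n : ℕ) : cnt Sᶜ n + cnt S n = n := by
  unfold cnt
  rw [← Set.ncard_union_eq ?_ (fin_aux _ _) (fin_aux _ _), ← Set.union_inter_distrib_right,
    Set.compl_union_self, Set.univ_inter]
  · rw [← Finset.coe_range, Set.ncard_coe_finset, Finset.card_range]
  · rw [Set.disjoint_left]
    rintro x ⟨hx, -⟩ ⟨hx', -⟩
    exact hx hx'

/-- density zero -/
def DZ (S : Set ℕ) : Prop := ∀ δ : ℝ, 0 < δ → ∃ M : ℕ, ∀ n ≥ M, (cnt S n : ℝ) ≤ δ * n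

lemma DZ.union {S T : Set ℕ} (hS : DZ S) (hT : DZ T) : DZ (S ∪ T) := by
  intro δ hδ
  obtain ⟨M1, h1⟩ := hS (δ / 2) (by positivity)
  obtain ⟨M2, h2⟩ := hT (δ / 2) (by positivity)
  refine ⟨max M1 M2, fun n hn => ?_⟩
  have h3 := h1 n ((le_max_left _ _).trans hn)
  have h4 := h2 n ((le_max_right _ _).trans hn)
  have h5 : (cnt (S ∪ T) n : ℝ) ≤ cnt S n + cnt T n := by exact_mod_cast cnt_union S T n
  linarith

lemma DZ.mono {S T : Set ℕ} (hT : DZ T) (h : S ⊆ T) : DZ S := by
  intro δ hδ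
  obtain ⟨M, hM⟩ := hT δ hδ
  exact ⟨M, fun n hn => le_trans (Nat.cast_le.2 (cnt_mono fun x _ hx => h hx)) (hM n hn)⟩

/-- one set of density one which almost avoids countably many sets of density zero -/
theorem diag {ι : Type*} [Countable ι] (B : ι → Set ℕ) (hB : ∀ i, DZ (B i)) :
    ∃ S : Set ℕ, Tendsto (fun n : ℕ => (cnt S n : ℝ) / n) atTop (𝓝 1) ∧
      ∀ i, ∃ x0 : ℕ, ∀ x ∈ S, x0 ≤ x → x ∉ B i := by
  rcases isEmpty_or_nonempty ι with hι | hι
  · refine ⟨Set.univ, ?_, fun i => (hι.false i).elim⟩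
    refine Tendsto.congr' ?_ tendsto_const_nhds
    filter_upwards [eventually_gt_atTop 0] with n hn
    have h1 : cnt Set.univ n = n := by
      unfold cnt
      rw [Set.univ_inter, ← Finset.coe_range, Set.ncard_coe_finset, Finset.card_range]
    rw [h1, div_self (by exact_mod_cast hn.ne')]
  obtain ⟨f, hf⟩ := exists_surjective_nat ι
  set U : ℕ → Set ℕ := fun r => ⋃ j ∈ Finset.range (r + 1), B (f j) with hU
  have hUz : ∀ r, DZ (U r) := by
    intro r
    induction r with
    | zero =>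
      have : U 0 = B (f 0) := by simp [hU]
      rw [this]; exact hB _
    | succ r ih =>
      refine (ih.union (hB (f (r + 1)))).mono ?_
      intro x hx
      simp only [hU, Set.mem_iUnion, Finset.mem_range, exists_prop] at hx
      obtain ⟨j, hj, hx⟩ := hx
      rcases Nat.lt_succ_iff_lt_or_eq.1 hj with h | h
      · left
        simp only [hU, Set.mem_iUnion, Finset.mem_range, exists_prop]
        exact ⟨j, h, hx⟩
      · right; rw [← h]; exact hx
  obtain ⟨φ, hφ, hφP⟩ := Filter.extraction_forall_of_eventually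
    (P := fun r m => ∀ n ≥ m, (cnt (U r) n : ℝ) ≤ 1 / ((r : ℝ) + 1) * n) (fun r => by
      obtain ⟨M, hM⟩ := hUz r (1 / ((r : ℝ) + 1)) (by positivity)
      filter_upwards [eventually_ge_atTop M] with m hm n hn
      exact hM n (hm.trans hn))
  set Bad : Set ℕ := {x | ∃ r, φ r ≤ x ∧ x ∈ B (f r)} with hBad
  have hBadDZ : DZ Bad := by
    intro δ hδ
    obtain ⟨R0, hR0⟩ := exists_nat_one_div_lt hδ
    refine ⟨φ R0, fun n hn => ?_⟩
    -- the level of n
    obtain ⟨R, hR1, hR2, hR3⟩ : ∃ R, R0 ≤ R ∧ φ R ≤ n ∧ n < φ (R + 1) := by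
      classical
      have hex : ∃ r, n < φ r := ⟨n + 1, lt_of_lt_of_le (Nat.lt_succ_self n) (hφ.id_le (n + 1))⟩
      have hmin := Nat.find_spec hex
      have hpos : R0 < Nat.find hex := by
        by_contra hcon
        push Not at hcon
        have := hφ.monotone hcon
        omega
      refine ⟨Nat.find hex - 1, by omega, ?_, ?_⟩
      · have := Nat.find_min hex (show Nat.find hex - 1 < Nat.find hex by omega)
        omega
      · rw [Nat.sub_add_cancel (by omega)]; exact hmin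
    have h1 : cnt Bad n ≤ cnt (U R) n := by
      refine cnt_mono fun x hx hxB => ?_
      obtain ⟨r, hr1, hr2⟩ := hxB
      have hrR : r ≤ R := by
        by_contra hcon
        push Not at hcon
        have := hφ.monotone (show R + 1 ≤ r by omega)
        omega
      simp only [hU, Set.mem_iUnion, Finset.mem_range, exists_prop]
      exact ⟨r, by omega, hr2⟩
    have h2 := hφP R n hR2
    have h3 : (1 : ℝ) / ((R : ℝ) + 1) ≤ 1 / ((R0 : ℝ) + 1) := by
      apply one_div_le_one_div_of_le (by positivity)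
      have : (R0 : ℝ) ≤ R := by exact_mod_cast hR1
      linarith
    have h4 : (cnt Bad n : ℝ) ≤ cnt (U R) n := by exact_mod_cast h1
    have h5 : (0 : ℝ) ≤ n := Nat.cast_nonneg _
    nlinarith
  refine ⟨Badᶜ, ?_, ?_⟩
  · have h1 : Tendsto (fun n : ℕ => (cnt Bad n : ℝ) / n) atTop (𝓝 0) := by
      rw [Metric.tendsto_atTop]
      intro ε hε
      obtain ⟨M, hM⟩ := hBadDZ (ε / 2) (by positivity)
      refine ⟨M + 1, fun n hn => ?_⟩
      have hn0 : (0 : ℝ) < n := by exact_mod_cast (by omega : 0 < n)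
      rw [Real.dist_eq, sub_zero, abs_of_nonneg (by positivity), div_lt_iff₀ hn0]
      have := hM n (by omega)
      nlinarith
    have h2 := (tendsto_const_nhds (x := (1 : ℝ))).sub h1
    rw [sub_zero] at h2
    refine h2.congr' ?_
    filter_upwards [eventually_gt_atTop 0] with n hn
    have hn0 : (n : ℝ) ≠ 0 := by exact_mod_cast hn.ne'
    have h3 : (cnt Badᶜ n : ℝ) + cnt Bad n = n := by exact_mod_cast cnt_compl Bad n
    field_simp
    linarith
  · intro i
    obtain ⟨r, rfl⟩ := hf i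
    exact ⟨φ r, fun x hxS hx hxB => hxS ⟨r, hx, hxB⟩⟩

end Pool.Agent.TH419.FS
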